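import Pool.Agent.Run7.h931.RS.Nt

/-!
# Random constants, part 1: a random constant hits a set of base values
-/

set_option autoImplicit false

namespace Pool.Agent.Run7.h189.RC

open Finset Filter
open Pool.Agent.Run7.h931.RS (Dc Cc Fw Pw gw pnt_lo sieve Fw_split Pw_le Fw_le_exp one_le_Fw)

/-- the singular factor of a number below `2 ^ L` -/
lemma Fw_small : ∃ C : ℝ, 1 ≤ C ∧ ∀ L : ℕ, 3 ≤ L → ∀ h : ℕ, 1 ≤ h → h ≤ 2 ^ L → Fw 0 h ≤ C * Real.log L := by
  obtain ⟨C, hC, hP⟩ := Pw_le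
  refine ⟨C * Real.exp 1, ?_, ?_⟩
  · have := Real.add_one_le_exp (1 : ℝ)
    nlinarith
  intro L hL h h1 hh
  have hL0 : (0 : ℝ) < L := by exact_mod_cast (by omega : 0 < L)
  have hlog : 0 ≤ Real.log (L : ℝ) := Real.log_natCast_nonneg L
  have e1 := Fw_split 0 L h (Nat.zero_le _)
  have e2 := hP L hL
  have e3 : Fw L h ≤ Real.exp 1 := by
    refine (Fw_le_exp L h).trans (Real.exp_le_exp.2 ?_)
    unfold gw
    have h2 : ∑ p ∈ h.primeFactors.filter (fun p => L < p), 1 / ((p : ℝ) - 1) ≤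
        ∑ _p ∈ h.primeFactors.filter (fun p => L < p), 1 / (L : ℝ) := by
      apply sum_le_sum
      intro p hp
      rw [mem_filter] at hp
      have h3 : (L : ℝ) + 1 ≤ p := by exact_mod_cast hp.2
      apply one_div_le_one_div_of_le hL0
      linarith
    refine h2.trans ?_
    rw [sum_const, nsmul_eq_mul, mul_one_div, div_le_one hL0]
    have h4 : (h.primeFactors.filter (fun p => L < p)).card ≤ L := by
      refine (card_filter_le _ _).trans ?_
      have h5 : 2 ^ h.primeFactors.card ≤ h := by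
        calc 2 ^ h.primeFactors.card = ∏ _p ∈ h.primeFactors, 2 := by rw [prod_const]
          _ ≤ ∏ p ∈ h.primeFactors, p := Finset.prod_le_prod' fun p hp => (Nat.prime_of_mem_primeFactors hp).two_le
          _ ≤ h := Nat.le_of_dvd h1 (Nat.prod_primeFactors_dvd h)
      exact (Nat.pow_le_pow_iff_right (by norm_num)).1 (h5.trans hh)
    exact_mod_cast h4
  have e4 : 0 ≤ Fw L h := le_trans zero_le_one (one_le_Fw L h)
  have e5 : 0 ≤ C * Real.log L := by positivity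
  calc Fw 0 h ≤ Pw L * Fw L h := e1
    _ ≤ (C * Real.log L) * Real.exp 1 := by
        apply mul_le_mul e2 e3 e4 e5
    _ = _ := by ring

/-- the constants `a ≤ 2 ^ L` with a prime `b + a`, `b ∈ V` -/
def hits (V : Finset ℕ) (L : ℕ) : Finset ℕ := (Icc 1 (2 ^ L)).filter fun a => ∃ b ∈ V, (b + a).Prime

lemma alg (H M A D : ℝ) (hH : 0 ≤ H) (hA : 0 < A) (hD : 0 ≤ D) (h : A ≤ M) (s : M ^ 2 ≤ H * (M + D)) : A ^ 2 ≤ H * (A + D) := by
  have hM : 0 < M := hA.trans_le h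
  have t1 : D * A ≤ D * M := mul_le_mul_of_nonneg_left h hD
  have t2 : H * ((M + D) * A) ≤ H * ((A + D) * M) := mul_le_mul_of_nonneg_left (by linarith) hH
  have t3 : M ^ 2 * A ≤ H * (M + D) * A := mul_le_mul_of_nonneg_right s hA.le
  have t4 : M * (M * A) ≤ M * (H * (A + D)) := by
    calc M * (M * A) = M ^ 2 * A := by ring
      _ ≤ H * (M + D) * A := t3
      _ = H * ((M + D) * A) := by ring
      _ ≤ H * ((A + D) * M) := t2
      _ = _ := by ring
  have t5 := le_of_mul_le_mul_left t4 hM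
  calc A ^ 2 = A * A := sq A
    _ ≤ M * A := mul_le_mul_of_nonneg_right h hA.le
    _ ≤ _ := t5

/-- the core: the second moment -/
theorem core (ε : ℝ) (hε : 0 < ε) : ∃ c : ℝ, 0 < c ∧ ∃ L₀ : ℕ, ∀ L : ℕ, L₀ ≤ L → ∀ V : Finset ℕ, (∀ b ∈ V, b ≤ 2 ^ L) →
    c * ((V.card : ℝ) / L) / (1 + (L : ℝ) ^ ε * ((V.card : ℝ) / L)) ≤ ((hits V L).card : ℝ) / 2 ^ L := by
  classical
  obtain ⟨K, hK, h1⟩ := pnt_lo 0 0
  obtain ⟨C₀, hC₀, h2⟩ := sieve 0
  obtain ⟨C₁, hC₁, h3⟩ := Fw_small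
  have ht : Tendsto (fun n : ℕ => 2 ^ n) atTop atTop := tendsto_pow_atTop_atTop_of_one_lt (by norm_num)
  obtain ⟨n0, hn0⟩ := eventually_atTop.1 (ht.eventually (h1.and h2))
  -- the loss is a small power of `L`
  have hsm : ∀ᶠ L : ℕ in atTop, (C₀ : ℝ) * (C₁ * Real.log L) ^ C₀ * 4 ≤ (L : ℝ) ^ ε := by
    have hlo : (fun L : ℕ => (C₀ : ℝ) * (C₁ * Real.log (L : ℝ)) ^ C₀ * 4) =o[atTop] (fun L : ℕ => (L : ℝ) ^ ε) := by
      have a1 : (fun x : ℝ => Real.log x ^ C₀) =o[atTop] (fun x : ℝ => x ^ ε) := by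
        have := isLittleO_log_rpow_rpow_atTop (C₀ : ℝ) hε
        refine this.congr' ?_ (by rfl)
        filter_upwards with x
        exact Real.rpow_natCast _ _
      have a2 := (a1.comp_tendsto tendsto_natCast_atTop_atTop).const_mul_left ((C₀ : ℝ) * C₁ ^ C₀ * 4)
      refine a2.congr_left ?_
      intro L
      simp only [Function.comp_apply]
      rw [mul_pow]
      ring
    filter_upwards [hlo.bound (show (0 : ℝ) < 1 by norm_num)] with L hL
    rw [one_mul, Real.norm_eq_abs, Real.norm_eq_abs, abs_of_nonneg (Real.rpow_nonneg (Nat.cast_nonneg L) _)] at hL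
    exact (le_abs_self _).trans hL
  obtain ⟨n1, hn1⟩ := eventually_atTop.1 hsm
  obtain ⟨n2, hn2⟩ := exists_nat_ge (4 * K)
  refine ⟨1 / 4, by norm_num, n0 + n1 + n2 + 3, ?_⟩
  intro L hL V hV
  obtain ⟨g1, g2⟩ := hn0 L (by omega)
  have g3 := hn1 L (by omega)
  have hLr : (1 : ℝ) ≤ L := by exact_mod_cast (by omega : 1 ≤ L)
  have hL0 : (0 : ℝ) < L := by linarith
  have hKL : 4 * K ≤ L := hn2.trans (by exact_mod_cast (by omega : n2 ≤ L))
  have hl2 : 1 / 2 ≤ Real.log 2 := by linarith [Real.log_two_gt_d9]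
  have hl2' : Real.log 2 ≤ 1 := by linarith [Real.log_two_lt_d9]
  have hq : (0 : ℝ) < 2 ^ L := by positivity
  have hcast : ((2 ^ L : ℕ) : ℝ) = 2 ^ L := by push_cast; rfl
  obtain ⟨l, hl⟩ : ∃ l : ℝ, l = Real.log ((2 : ℝ) ^ L) := ⟨_, rfl⟩
  have hll : l = L * Real.log 2 := by rw [hl, Real.log_pow]
  have hl0 : 0 < l := by rw [hll]; positivity
  have hlL : l ≤ L := by rw [hll]; nlinarith
  have hLl : (L : ℝ) / 2 ≤ l := by rw [hll]; nlinarith
  -- first moment
  have m1 : ∀ b ∈ V, (2 : ℝ) ^ L / (2 * L) ≤ (((Icc 1 (2 ^ L)).filter fun a => (b + a).Prime).card : ℝ) := by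
    intro b hb
    have k1 := g1 b (2 ^ L) (by simpa using hV b hb) (by simp) le_rfl
    rw [hcast, ← hl] at k1
    have k2 : Dc b (2 ^ L) ≤ ((Icc 1 (2 ^ L)).filter fun a => (b + a).Prime).card := by
      unfold Dc
      apply card_le_card_of_injOn (fun t => t - b)
      · intro t ht
        rw [mem_coe, mem_filter, mem_Ioc] at ht
        rw [mem_coe, mem_filter, mem_Icc]
        obtain ⟨⟨t1, t2⟩, t3⟩ := ht
        refine ⟨⟨show 1 ≤ t - b by omega, show t - b ≤ 2 ^ L by omega⟩, ?_⟩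
        show (b + (t - b)).Prime
        rw [Nat.add_sub_cancel' t1.le]
        exact t3
      · intro t ht t' ht' he
        rw [mem_coe, mem_filter, mem_Ioc] at ht ht'
        simp only at he
        omega
    have k3 : ((Dc b (2 ^ L) : ℕ) : ℝ) ≤ _ := Nat.cast_le.2 k2
    refine le_trans ?_ k3
    refine le_trans ?_ k1
    have k4 : K / l ≤ 1 / 2 := by
      rw [div_le_iff₀ hl0]
      linarith
    have k5 : (2 : ℝ) ^ L / l - K * (2 ^ L / l ^ 2) = (2 ^ L / l) * (1 - K / l) := by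
      field_simp
    rw [k5]
    calc (2 : ℝ) ^ L / (2 * L) = (2 ^ L / L) * (1 / 2) := by field_simp
      _ ≤ (2 ^ L / l) * (1 - K / l) := by
        apply mul_le_mul _ (by linarith) (by norm_num) (by positivity)
        exact div_le_div_of_nonneg_left hq.le hl0 hlL
  -- second moment
  have m2 : ∀ b ∈ V, ∀ b' ∈ V, b ≠ b' → (((Icc 1 (2 ^ L)).filter fun a => (b + a).Prime ∧ (b' + a).Prime).card : ℝ) ≤
      (L : ℝ) ^ ε * (2 ^ L / L ^ 2) := by
    have aux : ∀ b ∈ V, ∀ b' ∈ V, b < b' → (((Icc 1 (2 ^ L)).filter fun a => (b + a).Prime ∧ (b' + a).Prime).card : ℝ) ≤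
        (L : ℝ) ^ ε * (2 ^ L / L ^ 2) := by
      intro b hb b' hb' hlt
      have k1 := g2 b (2 ^ L) (b' - b) (by simp) le_rfl (by omega)
      rw [hcast, ← hl] at k1
      have k2 : ((Icc 1 (2 ^ L)).filter fun a => (b + a).Prime ∧ (b' + a).Prime).card ≤ Cc b (2 ^ L) (b' - b) := by
        unfold Cc
        apply card_le_card_of_injOn (fun a => b + a)
        · intro a ha
          rw [mem_coe, mem_filter, mem_Icc] at ha
          rw [mem_coe, mem_filter, mem_Ioc]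
          obtain ⟨⟨t1, t2⟩, t3, t4⟩ := ha
          refine ⟨⟨show b < b + a by omega, show b + a ≤ b + 2 ^ L by omega⟩, t3, ?_⟩
          have : b + a + (b' - b) = b' + a := by omega
          show (b + a + (b' - b)).Prime
          rw [this]
          exact t4
        · intro a _ a' _ he
          simp only at he
          omega
      have k3 : (((Icc 1 (2 ^ L)).filter fun a => (b + a).Prime ∧ (b' + a).Prime).card : ℝ) ≤ _ := Nat.cast_le.2 k2
      refine (k3.trans k1).trans ?_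
      have k4 := h3 L (by omega) (b' - b) (by omega) ((Nat.sub_le _ _).trans (hV b' hb'))
      have k5 : 0 ≤ Fw 0 (b' - b) := le_trans zero_le_one (one_le_Fw _ _)
      have k6 : Fw 0 (b' - b) ^ C₀ ≤ (C₁ * Real.log L) ^ C₀ := pow_le_pow_left₀ k5 k4 _
      have k7 : (2 : ℝ) ^ L / l ^ 2 ≤ 4 * (2 ^ L / L ^ 2) := by
        calc (2 : ℝ) ^ L / l ^ 2 ≤ 2 ^ L / (L / 2) ^ 2 := by
              apply div_le_div_of_nonneg_left hq.le (by positivity)
              exact pow_le_pow_left₀ (by positivity) hLl 2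
          _ = _ := by field_simp; norm_num
      have k8 : 0 ≤ (C₁ * Real.log L) ^ C₀ := le_trans (pow_nonneg k5 _) k6
      calc (C₀ : ℝ) * Fw 0 (b' - b) ^ C₀ * (2 ^ L / l ^ 2) ≤ C₀ * (C₁ * Real.log L) ^ C₀ * (4 * (2 ^ L / L ^ 2)) := by
            apply mul_le_mul _ k7 (by positivity) (by positivity)
            exact mul_le_mul_of_nonneg_left k6 (Nat.cast_nonneg _)
        _ = (C₀ * (C₁ * Real.log L) ^ C₀ * 4) * (2 ^ L / L ^ 2) := by ring
        _ ≤ _ := mul_le_mul_of_nonneg_right g3 (by positivity)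
    intro b hb b' hb' hne
    rcases lt_or_gt_of_ne hne with h | h
    · exact aux b hb b' hb' h
    · have e : ((Icc 1 (2 ^ L)).filter fun a => (b + a).Prime ∧ (b' + a).Prime) =
          ((Icc 1 (2 ^ L)).filter fun a => (b' + a).Prime ∧ (b + a).Prime) := filter_congr fun a _ => and_comm
      rw [e]
      exact aux b' hb' b hb h
  -- Cauchy-Schwarz
  obtain ⟨T, hT⟩ : ∃ T : ℕ → ℝ, T = fun a => ∑ b ∈ V, if (b + a).Prime then (1 : ℝ) else 0 := ⟨_, rfl⟩
  have hT0 : ∀ a, 0 ≤ T a := fun a => by rw [hT]; exact sum_nonneg fun b _ => by split_ifs <;> norm_num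
  obtain ⟨M1, hM1⟩ : ∃ M1 : ℝ, M1 = ∑ a ∈ Icc 1 (2 ^ L), T a := ⟨_, rfl⟩
  have hM1e : M1 = ∑ b ∈ V, (((Icc 1 (2 ^ L)).filter fun a => (b + a).Prime).card : ℝ) := by
    rw [hM1, hT]
    simp only
    rw [sum_comm]
    apply sum_congr rfl
    intro b _
    rw [card_filter]
    push_cast
    rfl
  have hM1lo : (V.card : ℝ) * (2 ^ L / (2 * L)) ≤ M1 := by
    rw [hM1e, ← nsmul_eq_mul, ← sum_const]
    exact sum_le_sum m1
  have hM10 : 0 ≤ M1 := le_trans (by positivity) hM1lo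
  have hM2 : ∑ a ∈ Icc 1 (2 ^ L), T a ^ 2 ≤ M1 + (V.card : ℝ) ^ 2 * ((L : ℝ) ^ ε * (2 ^ L / L ^ 2)) := by
    have e1 : ∑ a ∈ Icc 1 (2 ^ L), T a ^ 2 = ∑ b ∈ V, ∑ b' ∈ V,
        (((Icc 1 (2 ^ L)).filter fun a => (b + a).Prime ∧ (b' + a).Prime).card : ℝ) := by
      have e2 : ∀ a, T a ^ 2 = ∑ b ∈ V, ∑ b' ∈ V, (if (b + a).Prime ∧ (b' + a).Prime then (1 : ℝ) else 0) := by
        intro a
        rw [hT]
        simp only
        rw [sq, sum_mul_sum]
        apply sum_congr rfl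
        intro b _
        apply sum_congr rfl
        intro b' _
        by_cases h : (b + a).Prime <;> by_cases h' : (b' + a).Prime <;> simp [h, h']
      simp only [e2]
      rw [sum_comm]
      apply sum_congr rfl
      intro b _
      rw [sum_comm]
      apply sum_congr rfl
      intro b' _
      rw [card_filter]
      push_cast
      rfl
    rw [e1]
    have e3 : ∀ b ∈ V, ∑ b' ∈ V, (((Icc 1 (2 ^ L)).filter fun a => (b + a).Prime ∧ (b' + a).Prime).card : ℝ) ≤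
        (((Icc 1 (2 ^ L)).filter fun a => (b + a).Prime).card : ℝ) + V.card * ((L : ℝ) ^ ε * (2 ^ L / L ^ 2)) := by
      intro b hb
      rw [← add_sum_erase V _ hb]
      apply add_le_add
      · apply le_of_eq
        congr 2
        apply filter_congr
        intro a _
        exact and_self_iff
      · calc ∑ b' ∈ V.erase b, (((Icc 1 (2 ^ L)).filter fun a => (b + a).Prime ∧ (b' + a).Prime).card : ℝ) ≤
            ∑ _b' ∈ V.erase b, (L : ℝ) ^ ε * (2 ^ L / L ^ 2) := by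
              apply sum_le_sum
              intro b' hb'
              rw [mem_erase] at hb'
              exact m2 b hb b' hb'.2 (Ne.symm hb'.1)
          _ = (V.erase b).card * ((L : ℝ) ^ ε * (2 ^ L / L ^ 2)) := by rw [sum_const, nsmul_eq_mul]
          _ ≤ _ := by
              apply mul_le_mul_of_nonneg_right _ (by positivity)
              exact_mod_cast card_le_card (erase_subset _ _)
    refine (sum_le_sum e3).trans ?_
    rw [sum_add_distrib, sum_const, nsmul_eq_mul, ← hM1e]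
    apply le_of_eq
    ring
  have hcs : M1 ^ 2 ≤ ((hits V L).card : ℝ) * ∑ a ∈ Icc 1 (2 ^ L), T a ^ 2 := by
    have e1 : M1 = ∑ a ∈ hits V L, T a := by
      rw [hM1]
      symm
      apply sum_subset (filter_subset _ _)
      intro a ha hna
      rw [hT]
      simp only
      apply sum_eq_zero
      intro b hb
      rw [if_neg]
      intro hp
      exact hna (mem_filter.2 ⟨ha, b, hb, hp⟩)
    rw [e1]
    have e3 := Finset.sum_mul_sq_le_sq_mul_sq (hits V L) (fun _ => (1 : ℝ)) T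
    simp only [one_mul, one_pow, sum_const, nsmul_eq_mul, mul_one] at e3
    refine e3.trans ?_
    apply mul_le_mul_of_nonneg_left _ (Nat.cast_nonneg _)
    apply sum_le_sum_of_subset_of_nonneg (filter_subset _ _)
    intro a _ _
    positivity
  -- conclusion
  obtain ⟨x, hx⟩ : ∃ x : ℝ, x = (V.card : ℝ) / L := ⟨_, rfl⟩
  rw [← hx]
  have hx0 : 0 ≤ x := by rw [hx]; positivity
  rcases eq_or_lt_of_le hx0 with hxz | hxp
  · rw [← hxz]
    simp only [mul_zero, zero_div]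
    positivity
  obtain ⟨H, hH⟩ : ∃ H : ℝ, H = ((hits V L).card : ℝ) := ⟨_, rfl⟩
  have hH0 : 0 ≤ H := by rw [hH]; positivity
  rw [← hH] at hcs ⊢
  obtain ⟨A, hA⟩ : ∃ A : ℝ, A = (V.card : ℝ) * (2 ^ L / (2 * L)) := ⟨_, rfl⟩
  have hAx : A = 2 ^ L * (x / 2) := by rw [hA, hx]; field_simp
  obtain ⟨D, hD⟩ : ∃ D : ℝ, D = (V.card : ℝ) ^ 2 * ((L : ℝ) ^ ε * (2 ^ L / L ^ 2)) := ⟨_, rfl⟩
  have hDx : D = 2 ^ L * ((L : ℝ) ^ ε * x ^ 2) := by rw [hD, hx]; field_simp
  rw [← hA] at hM1lo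
  rw [← hD] at hM2
  have hA0 : 0 < A := by rw [hAx]; positivity
  have hD0 : 0 ≤ D := by rw [hDx]; positivity
  have hM1p : 0 < M1 := hA0.trans_le hM1lo
  have s1 : M1 ^ 2 ≤ H * (M1 + D) := hcs.trans (mul_le_mul_of_nonneg_left hM2 hH0)
  -- `A² / (A + D) ≤ M1² / (M1 + D)`
  have s2 : A ^ 2 ≤ H * (A + D) := alg H M1 A D hH0 hA0 hD0 hM1lo s1
  rw [div_le_div_iff₀ (by positivity) hq]
  rw [hAx, hDx] at s2
  have s3 : (2 : ℝ) ^ L * (x / 2) ^ 2 ≤ H * (x / 2 + (L : ℝ) ^ ε * x ^ 2) := by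
    have e1 : (2 ^ L * (x / 2)) ^ 2 = 2 ^ L * (2 ^ L * (x / 2) ^ 2) := by ring
    have e2 : H * (2 ^ L * (x / 2) + 2 ^ L * ((L : ℝ) ^ ε * x ^ 2)) = 2 ^ L * (H * (x / 2 + (L : ℝ) ^ ε * x ^ 2)) := by ring
    rw [e1, e2] at s2
    exact le_of_mul_le_mul_left s2 hq
  have s4 : x * ((2 : ℝ) ^ L * (x / 4)) ≤ x * (H * (1 / 2 + (L : ℝ) ^ ε * x)) := by
    calc x * ((2 : ℝ) ^ L * (x / 4)) = 2 ^ L * (x / 2) ^ 2 := by ring
      _ ≤ H * (x / 2 + (L : ℝ) ^ ε * x ^ 2) := s3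
      _ = _ := by ring
  have s5 := le_of_mul_le_mul_left s4 hxp
  calc 1 / 4 * x * 2 ^ L = 2 ^ L * (x / 4) := by ring
    _ ≤ H * (1 / 2 + (L : ℝ) ^ ε * x) := s5
    _ ≤ H * (1 + (L : ℝ) ^ ε * x) := mul_le_mul_of_nonneg_left (by linarith) hH0

end Pool.Agent.Run7.h189.RC
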