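import Pool.Agent.Run7.h189.RC.Core

/-!
# Random constants, part 2: the sum over the last coordinate
-/

set_option autoImplicit false

namespace Pool.Agent.Run7.h189.RC

open Finset Filter

/-- the base values with last coordinate `w` -/
def base (S : Finset (ℕ × ℕ × ℕ × ℕ)) (b : ℕ × ℕ × ℕ × ℕ → ℕ) (w : ℕ) : Finset ℕ :=
  (S.filter fun v => v.2.2.2 = w).image b

/-- the number of the binary digits of the constants -/
noncomputable def len (η : ℝ) (w : ℕ) : ℕ := ⌊(w : ℝ) ^ (1 + η)⌋₊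

lemma ev_rpow (e K : ℝ) (he : 0 < e) : ∀ᶠ n : ℕ in atTop, K ≤ (n : ℝ) ^ e :=
  ((tendsto_rpow_atTop he).comp tendsto_natCast_atTop_atTop).eventually_ge_atTop K

lemma card_low (S : Finset (ℕ × ℕ × ℕ × ℕ)) (w0 K : ℝ) (hw0 : 0 ≤ w0) (hK : 0 ≤ K)
    (h : ∀ w, ((S.filter fun v => v.2.2.2 = w).card : ℝ) ≤ K) :
    ((S.filter fun v => ((v.2.2.2 : ℕ) : ℝ) < w0).card : ℝ) ≤ (w0 + 1) * K := by
  classical
  have h1 : (S.filter fun v => ((v.2.2.2 : ℕ) : ℝ) < w0).card ≤ ∑ w ∈ range ⌈w0⌉₊, (S.filter fun v => v.2.2.2 = w).card := by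
    refine le_trans (card_le_card ?_) (card_biUnion_le (s := range ⌈w0⌉₊) (t := fun w => S.filter fun v => v.2.2.2 = w))
    intro v hv
    rw [mem_filter] at hv
    rw [mem_biUnion]
    exact ⟨v.2.2.2, mem_range.2 (Nat.lt_ceil.2 hv.2), mem_filter.2 ⟨hv.1, rfl⟩⟩
  have h2 : ((S.filter fun v => ((v.2.2.2 : ℕ) : ℝ) < w0).card : ℝ) ≤ ∑ w ∈ range ⌈w0⌉₊, ((S.filter fun v => v.2.2.2 = w).card : ℝ) := by
    exact_mod_cast h1
  refine h2.trans ((sum_le_sum fun w _ => h w).trans ?_)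
  rw [sum_const, nsmul_eq_mul, card_range]
  exact mul_le_mul_of_nonneg_right (Nat.ceil_lt_add_one hw0).le hK

theorem engine (η : ℝ) (hη : 0 < η) (hη1 : η < 1 / 2) (c C : ℝ) (hc : 0 < c) (hC : 0 < C) :
    ∀ᶠ n : ℕ in atTop, ∀ (S : Finset (ℕ × ℕ × ℕ × ℕ)) (b : ℕ × ℕ × ℕ × ℕ → ℕ),
      c * (n : ℝ) ^ (1 - η / 12) ≤ S.card → (∀ v ∈ S, v.2.2.2 ≤ Nat.sqrt n) →
      (∀ w, ((S.filter fun v => v.2.2.2 = w).card : ℝ) ≤ C * (n : ℝ) ^ (1 / 2 + η / 12)) →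
      (∀ w B, ((S.filter fun v => v.2.2.2 = w).filter fun v => b v = B).card ≤ 12) →
      (∀ v ∈ S, b v ≤ 2 ^ (4 * (Nat.sqrt n + 1))) →
      4 * (n : ℝ) ^ (1 / 2 - η) ≤ ∑ w ∈ range (Nat.sqrt n + 1), ((hits (base S b w) (len η w)).card : ℝ) / 2 ^ (len η w) := by
  classical
  obtain ⟨ε, hε⟩ : ∃ ε : ℝ, ε = η / 12 := ⟨_, rfl⟩
  have hε0 : 0 < ε := by rw [hε]; positivity
  have hη' : η = 12 * ε := by rw [hε]; ring
  rw [← hε]
  have hε1 : ε < 1 / 24 := by linarith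
  obtain ⟨c1, hc1, L₀, hcore⟩ := core ε hε0
  have hexp : 1 / 2 < (1 / 2 - 3 * ε) * (1 + η) := by rw [hη']; nlinarith
  -- the conditions on `n`
  have A1 : ∀ᶠ n : ℕ in atTop, (L₀ : ℝ) + 4 * ((n : ℝ) ^ (1 / 2 : ℝ) + 1) + 1 ≤ (n : ℝ) ^ ((1 / 2 - 3 * ε) * (1 + η)) := by
    have h1 := ev_rpow ((1 / 2 - 3 * ε) * (1 + η) - 1 / 2) (L₀ + 9) (by linarith)
    filter_upwards [h1, eventually_ge_atTop 1] with n g1 g2
    have hn0 : (0 : ℝ) < n := by exact_mod_cast g2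
    have hn1 : 1 ≤ (n : ℝ) ^ (1 / 2 : ℝ) := Real.one_le_rpow (by exact_mod_cast g2) (by norm_num)
    have e : (n : ℝ) ^ ((1 / 2 - 3 * ε) * (1 + η)) = (n : ℝ) ^ (1 / 2 : ℝ) * (n : ℝ) ^ ((1 / 2 - 3 * ε) * (1 + η) - 1 / 2) := by
      rw [← Real.rpow_add hn0]
      congr 1
      ring
    rw [e]
    have h2 := mul_le_mul_of_nonneg_left g1 (by linarith : 0 ≤ (n : ℝ) ^ (1 / 2 : ℝ))
    have h3 : (L₀ : ℝ) * 1 ≤ L₀ * (n : ℝ) ^ (1 / 2 : ℝ) := mul_le_mul_of_nonneg_left hn1 (Nat.cast_nonneg _)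
    linarith
  have A2 : ∀ᶠ n : ℕ in atTop, 4 * C / c ≤ (n : ℝ) ^ ε := ev_rpow ε _ hε0
  have A3 : ∀ᶠ n : ℕ in atTop, 4 * (24 * (1 + C) / (c1 * c)) ≤ (n : ℝ) ^ (3 * ε) := ev_rpow (3 * ε) _ (by linarith)
  filter_upwards [A1, A2, A3, eventually_ge_atTop 1] with n B1 B2 B3 hn S b hS1 hS2 hS3 hS4 hS5
  have hn0 : (0 : ℝ) < n := by exact_mod_cast hn
  have hn1 : (1 : ℝ) ≤ n := by exact_mod_cast hn
  have hsq : ((Nat.sqrt n : ℕ) : ℝ) ≤ (n : ℝ) ^ (1 / 2 : ℝ) := by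
    rw [← Real.sqrt_eq_rpow]
    exact Real.nat_sqrt_le_real_sqrt
  obtain ⟨w0, hw0⟩ : ∃ w0 : ℝ, w0 = (n : ℝ) ^ (1 / 2 - 3 * ε) := ⟨_, rfl⟩
  have hw01 : 1 ≤ w0 := by rw [hw0]; exact Real.one_le_rpow hn1 (by linarith)
  -- few elements have a small last coordinate
  have k1 : ((S.filter fun v => ((v.2.2.2 : ℕ) : ℝ) < w0).card : ℝ) ≤ c / 2 * (n : ℝ) ^ (1 - ε) := by
    refine (card_low S w0 _ (by linarith) (by positivity) hS3).trans ?_
    rw [div_le_iff₀ hc] at B2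
    have e1 : (n : ℝ) ^ (1 - ε) = (n : ℝ) ^ ε * (w0 * (n : ℝ) ^ (1 / 2 + ε)) := by
      rw [hw0, ← Real.rpow_add hn0, ← Real.rpow_add hn0]
      congr 1
      ring
    rw [e1]
    have e2 : 0 < w0 * (n : ℝ) ^ (1 / 2 + ε) := by positivity
    calc (w0 + 1) * (C * (n : ℝ) ^ (1 / 2 + ε)) ≤ (2 * w0) * (C * (n : ℝ) ^ (1 / 2 + ε)) := by
          apply mul_le_mul_of_nonneg_right (by linarith) (by positivity)
      _ = (4 * C) * (w0 * (n : ℝ) ^ (1 / 2 + ε)) / 2 := by ring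
      _ ≤ ((n : ℝ) ^ ε * c) * (w0 * (n : ℝ) ^ (1 / 2 + ε)) / 2 := by
          have := mul_le_mul_of_nonneg_right B2 e2.le
          linarith
      _ = _ := by ring
  obtain ⟨W, hW⟩ : ∃ W : Finset ℕ, W = (range (Nat.sqrt n + 1)).filter fun w => w0 ≤ ((w : ℕ) : ℝ) := ⟨_, rfl⟩
  have k2 : c / 2 * (n : ℝ) ^ (1 - ε) ≤ ∑ w ∈ W, ((S.filter fun v => v.2.2.2 = w).card : ℝ) := by
    have h1 : (S.filter fun v => ¬ ((v.2.2.2 : ℕ) : ℝ) < w0).card = ∑ w ∈ W, (S.filter fun v => v.2.2.2 = w).card := by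
      rw [card_eq_sum_card_fiberwise (f := fun v => v.2.2.2) (t := W)]
      · apply sum_congr rfl
        intro w hw
        rw [hW, mem_filter] at hw
        congr 1
        ext v
        rw [mem_filter, mem_filter, mem_filter]
        constructor
        · rintro ⟨⟨g1, -⟩, g2⟩
          exact ⟨g1, g2⟩
        · rintro ⟨g1, g2⟩
          refine ⟨⟨g1, ?_⟩, g2⟩
          rw [g2]
          exact not_lt.2 hw.2
      · intro v hv
        rw [mem_coe, mem_filter] at hv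
        rw [mem_coe, hW, mem_filter, mem_range]
        exact ⟨by have := hS2 v hv.1; simp only; omega, not_lt.1 hv.2⟩
    have h2 := card_filter_add_card_filter_not (s := S) (fun v => ((v.2.2.2 : ℕ) : ℝ) < w0)
    have h3 : (S.card : ℝ) = ((S.filter fun v => ((v.2.2.2 : ℕ) : ℝ) < w0).card : ℝ) + ((S.filter fun v => ¬ ((v.2.2.2 : ℕ) : ℝ) < w0).card : ℝ) := by
      exact_mod_cast h2.symm
    have h4 : ((S.filter fun v => ¬ ((v.2.2.2 : ℕ) : ℝ) < w0).card : ℝ) = ∑ w ∈ W, ((S.filter fun v => v.2.2.2 = w).card : ℝ) := by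
      exact_mod_cast h1
    linarith
  -- the probabilities
  have k3 : ∀ w ∈ W, c1 / ((1 + C) * (n : ℝ) ^ (2 * ε)) * (((S.filter fun v => v.2.2.2 = w).card : ℝ) / 12 / (n : ℝ) ^ ((1 + η) / 2)) ≤
      ((hits (base S b w) (len η w)).card : ℝ) / 2 ^ (len η w) := by
    intro w hw
    rw [hW, mem_filter, mem_range] at hw
    obtain ⟨hw1, hw2⟩ := hw
    obtain ⟨L, hL⟩ : ∃ L, L = len η w := ⟨_, rfl⟩
    rw [← hL]
    have hwr : ((w : ℕ) : ℝ) ≤ (n : ℝ) ^ (1 / 2 : ℝ) := le_trans (by exact_mod_cast (by omega : w ≤ Nat.sqrt n)) hsq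
    have hw00 : (0 : ℝ) ≤ w := Nat.cast_nonneg w
    have l1 : (n : ℝ) ^ ((1 / 2 - 3 * ε) * (1 + η)) ≤ (w : ℝ) ^ (1 + η) := by
      rw [Real.rpow_mul hn0.le, ← hw0]
      exact Real.rpow_le_rpow (by linarith) hw2 (by linarith)
    have l2 : (w : ℝ) ^ (1 + η) < L + 1 := by rw [hL]; exact Nat.lt_floor_add_one _
    have l3 : (L : ℝ) ≤ (n : ℝ) ^ ((1 + η) / 2) := by
      have e1 : (L : ℝ) ≤ (w : ℝ) ^ (1 + η) := by rw [hL]; exact Nat.floor_le (by positivity)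
      refine e1.trans ?_
      have e2 : (n : ℝ) ^ ((1 + η) / 2) = ((n : ℝ) ^ (1 / 2 : ℝ)) ^ (1 + η) := by
        rw [← Real.rpow_mul hn0.le]
        congr 1
        ring
      rw [e2]
      exact Real.rpow_le_rpow hw00 hwr (by linarith)
    have hs0 : 0 ≤ (n : ℝ) ^ (1 / 2 : ℝ) := by positivity
    have l5 : L₀ ≤ L := by
      have : (L₀ : ℝ) < L + 1 := by linarith
      have : L₀ < L + 1 := by exact_mod_cast this
      omega
    have l6 : 4 * (Nat.sqrt n + 1) ≤ L := by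
      have h1 : (4 : ℝ) * (Nat.sqrt n + 1) < L + 1 := by
        have : (0 : ℝ) ≤ L₀ := Nat.cast_nonneg _
        linarith
      have h2 : 4 * (Nat.sqrt n + 1) < L + 1 := by exact_mod_cast h1
      omega
    have l7 : (n : ℝ) ^ (1 / 2 : ℝ) ≤ L := by
      have : (0 : ℝ) ≤ L₀ := Nat.cast_nonneg _
      linarith
    have hLpos : (0 : ℝ) < L := lt_of_lt_of_le (by positivity) l7
    obtain ⟨s, hs⟩ : ∃ s : ℝ, s = ((S.filter fun v => v.2.2.2 = w).card : ℝ) := ⟨_, rfl⟩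
    have hs' := hS3 w
    rw [← hs] at hs' ⊢
    have hs00 : 0 ≤ s := by rw [hs]; exact Nat.cast_nonneg _
    have hV1 : s ≤ 12 * ((base S b w).card : ℝ) := by
      have := card_le_mul_card_image_of_maps_to (s := S.filter fun v => v.2.2.2 = w) (f := b) (t := base S b w)
        (fun v hv => mem_image_of_mem b hv) 12 (fun B _ => hS4 w B)
      rw [hs]
      exact_mod_cast this
    have hV2 : ((base S b w).card : ℝ) ≤ s := by
      rw [hs]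
      exact_mod_cast card_image_le
    have hV3 : ∀ B ∈ base S b w, B ≤ 2 ^ L := by
      intro B hB
      unfold base at hB
      rw [mem_image] at hB
      obtain ⟨v, hv, rfl⟩ := hB
      exact (hS5 v (mem_filter.1 hv).1).trans (Nat.pow_le_pow_right (by norm_num) l6)
    have h := hcore L l5 (base S b w) hV3
    obtain ⟨V, hV⟩ : ∃ V : ℝ, V = ((base S b w).card : ℝ) := ⟨_, rfl⟩
    rw [← hV] at hV1 hV2 h
    have hV0 : 0 ≤ V := by rw [hV]; exact Nat.cast_nonneg _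
    refine le_trans ?_ h
    have x1 : V / L ≤ C * (n : ℝ) ^ ε := by
      rw [div_le_iff₀ hLpos]
      calc V ≤ C * (n : ℝ) ^ (1 / 2 + ε) := hV2.trans hs'
        _ = C * (n : ℝ) ^ ε * (n : ℝ) ^ (1 / 2 : ℝ) := by
            rw [mul_assoc, ← Real.rpow_add hn0]
            congr 2
            ring
        _ ≤ C * (n : ℝ) ^ ε * L := mul_le_mul_of_nonneg_left l7 (by positivity)
    have x2 : (L : ℝ) ^ ε ≤ (n : ℝ) ^ ε := by
      apply Real.rpow_le_rpow hLpos.le _ hε0.le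
      refine l3.trans ?_
      calc (n : ℝ) ^ ((1 + η) / 2) ≤ (n : ℝ) ^ (1 : ℝ) := Real.rpow_le_rpow_of_exponent_le hn1 (by linarith)
        _ = n := Real.rpow_one _
    have hne : 1 ≤ (n : ℝ) ^ (2 * ε) := Real.one_le_rpow hn1 (by linarith)
    have hxx : 0 ≤ V / L := by positivity
    have x3 : 1 + (L : ℝ) ^ ε * (V / L) ≤ (1 + C) * (n : ℝ) ^ (2 * ε) := by
      have e1 : (n : ℝ) ^ (2 * ε) = (n : ℝ) ^ ε * (n : ℝ) ^ ε := by
        rw [← Real.rpow_add hn0]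
        congr 1
        ring
      have e2 : (L : ℝ) ^ ε * (V / L) ≤ (n : ℝ) ^ ε * (C * (n : ℝ) ^ ε) := mul_le_mul x2 x1 hxx (by positivity)
      have e3 : (n : ℝ) ^ ε * (C * (n : ℝ) ^ ε) = C * (n : ℝ) ^ (2 * ε) := by rw [e1]; ring
      linarith
    have x4 : s / 12 / (n : ℝ) ^ ((1 + η) / 2) ≤ V / L := by
      calc s / 12 / (n : ℝ) ^ ((1 + η) / 2) ≤ V / (n : ℝ) ^ ((1 + η) / 2) := by
            apply div_le_div_of_nonneg_right _ (by positivity)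
            linarith
        _ ≤ V / L := div_le_div_of_nonneg_left hV0 hLpos l3
    have hden : 0 < 1 + (L : ℝ) ^ ε * (V / L) := by positivity
    calc c1 / ((1 + C) * (n : ℝ) ^ (2 * ε)) * (s / 12 / (n : ℝ) ^ ((1 + η) / 2)) ≤ c1 / ((1 + C) * (n : ℝ) ^ (2 * ε)) * (V / L) :=
          mul_le_mul_of_nonneg_left x4 (by positivity)
      _ = c1 * (V / L) / ((1 + C) * (n : ℝ) ^ (2 * ε)) := by ring
      _ ≤ c1 * (V / L) / (1 + (L : ℝ) ^ ε * (V / L)) := div_le_div_of_nonneg_left (by positivity) hden x3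
  -- the sum
  have k4 : ∑ w ∈ W, ((hits (base S b w) (len η w)).card : ℝ) / 2 ^ (len η w) ≤
      ∑ w ∈ range (Nat.sqrt n + 1), ((hits (base S b w) (len η w)).card : ℝ) / 2 ^ (len η w) := by
    rw [hW]
    exact sum_le_sum_of_subset_of_nonneg (filter_subset _ _) (fun _ _ _ => div_nonneg (Nat.cast_nonneg _) (pow_nonneg zero_le_two _))
  refine le_trans ?_ k4
  refine le_trans ?_ (sum_le_sum k3)
  rw [← mul_sum, ← sum_div, ← sum_div]
  have k5 : c1 / ((1 + C) * (n : ℝ) ^ (2 * ε)) * (c / 2 * (n : ℝ) ^ (1 - ε) / 12 / (n : ℝ) ^ ((1 + η) / 2)) ≤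
      c1 / ((1 + C) * (n : ℝ) ^ (2 * ε)) * ((∑ w ∈ W, ((S.filter fun v => v.2.2.2 = w).card : ℝ)) / 12 / (n : ℝ) ^ ((1 + η) / 2)) := by
    gcongr
  refine le_trans ?_ k5
  have e1 : (n : ℝ) ^ (1 - ε) = (n : ℝ) ^ (2 * ε) * (n : ℝ) ^ ((1 + η) / 2) * (n : ℝ) ^ (1 / 2 - η) * (n : ℝ) ^ (3 * ε) := by
    rw [← Real.rpow_add hn0, ← Real.rpow_add hn0, ← Real.rpow_add hn0]
    congr 1
    rw [hη']
    ring
  rw [e1]
  have hcc : 0 < c1 * c := by positivity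
  have e2 : c1 / ((1 + C) * (n : ℝ) ^ (2 * ε)) * (c / 2 * ((n : ℝ) ^ (2 * ε) * (n : ℝ) ^ ((1 + η) / 2) * (n : ℝ) ^ (1 / 2 - η) * (n : ℝ) ^ (3 * ε)) / 12 / (n : ℝ) ^ ((1 + η) / 2)) =
      (n : ℝ) ^ (1 / 2 - η) * ((n : ℝ) ^ (3 * ε) / (24 * (1 + C) / (c1 * c))) := by
    field_simp
    norm_num
  rw [e2]
  have e3 : 4 ≤ (n : ℝ) ^ (3 * ε) / (24 * (1 + C) / (c1 * c)) := by
    rw [le_div_iff₀ (by positivity)]
    exact B3
  have e4 := mul_le_mul_of_nonneg_left e3 (by positivity : 0 ≤ (n : ℝ) ^ (1 / 2 - η))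
  linarith

end Pool.Agent.Run7.h189.RC
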