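import Pool.Agent.Run7.h189.RC.Engine

/-!
# Random constants, part 3: the large deviations and all `n` at once
-/

set_option autoImplicit false

namespace Pool.Agent.Run7.h189.RC

open MeasureTheory ProbabilityTheory Filter Finset
open scoped Topology ENNReal

variable {Ω : Type} [MeasurableSpace Ω] {μ : Measure Ω} [IsProbabilityMeasure μ] {a : ℕ → Ω → ℕ}

/-- the indicator function of a finite set -/
noncomputable def ind (H : Finset ℕ) (k : ℕ) : ℝ := (H : Set ℕ).indicator (fun _ => (1 : ℝ)) k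

/-- the number of the hits -/
noncomputable def Y (a : ℕ → Ω → ℕ) (H : ℕ → Finset ℕ) (M : ℕ) (ω : Ω) : ℝ := ∑ w ∈ range M, ind (H w) (a w ω)

lemma meas_ind (H : Finset ℕ) : Measurable (ind H) := measurable_of_countable _

lemma ind_bd (H : Finset ℕ) (k : ℕ) : 0 ≤ ind H k ∧ ind H k ≤ 1 := by
  unfold ind
  exact ⟨Set.indicator_nonneg (fun _ _ => zero_le_one) _, Set.indicator_le_self' (fun _ _ => zero_le_one) _⟩

lemma prob_H {w : ℕ} (hm : Measurable (a w)) (H : Finset ℕ) (L : ℕ) (hH : ∀ k ∈ H, 1 ≤ k ∧ k ≤ 2 ^ L)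
    (hlaw : ∀ k, 1 ≤ k → k ≤ 2 ^ L → μ.real {ω | a w ω = k} = 1 / 2 ^ L) :
    μ.real {ω | a w ω ∈ H} = (H.card : ℝ) / 2 ^ L := by
  have h1 : {ω | a w ω ∈ H} = ⋃ k ∈ H, {ω | a w ω = k} := by
    ext ω
    simp
  rw [h1, measureReal_biUnion_finset]
  · rw [sum_congr rfl fun k hk => hlaw k (hH k hk).1 (hH k hk).2, sum_const, nsmul_eq_mul]
    ring
  · intro k _ l _ hkl
    rw [Function.onFun, Set.disjoint_left]
    intro ω h2 h3
    exact hkl (h2.symm.trans h3)
  · intro k _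
    exact hm (measurableSet_singleton k)

lemma mgf_ind {w : ℕ} (hm : Measurable (a w)) (H : Finset ℕ) (t : ℝ) :
    mgf (ind H ∘ a w) μ t = 1 + μ.real {ω | a w ω ∈ H} * (Real.exp t - 1) := by
  have hs : MeasurableSet {ω | a w ω ∈ H} := hm (Set.to_countable (H : Set ℕ)).measurableSet
  have h1 : ∀ ω, Real.exp (t * (ind H ∘ a w) ω) = 1 + (Real.exp t - 1) * ({ω | a w ω ∈ H}.indicator (fun _ => (1 : ℝ)) ω) := by
    intro ω
    rw [Function.comp_apply]
    unfold ind
    by_cases h : a w ω ∈ H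
    · rw [Set.indicator_of_mem (by exact h), Set.indicator_of_mem (by exact h)]
      ring_nf
    · rw [Set.indicator_of_notMem (by exact h), Set.indicator_of_notMem (by exact h)]
      simp
  unfold mgf
  simp only [h1]
  rw [integral_add (integrable_const _) (((integrable_const (1 : ℝ)).indicator hs).const_mul _), integral_const_mul,
    integral_indicator hs]
  simp only [integral_const, probReal_univ, smul_eq_mul, mul_one, measureReal_restrict_apply_univ]
  ring

lemma meas_Y (hm : ∀ w, Measurable (a w)) (H : ℕ → Finset ℕ) (M : ℕ) : Measurable (Y a H M) := by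
  unfold Y
  exact Finset.measurable_sum _ fun w _ => (meas_ind (H w)).comp (hm w)

lemma Y_bd (a : ℕ → Ω → ℕ) (H : ℕ → Finset ℕ) (M : ℕ) (ω : Ω) : 0 ≤ Y a H M ω ∧ Y a H M ω ≤ M := by
  unfold Y
  constructor
  · exact sum_nonneg fun w _ => (ind_bd _ _).1
  · calc ∑ w ∈ range M, ind (H w) (a w ω) ≤ ∑ _w ∈ range M, (1 : ℝ) := sum_le_sum fun w _ => (ind_bd _ _).2
      _ = M := by simp

lemma int_Y (hm : ∀ w, Measurable (a w)) (H : ℕ → Finset ℕ) (M : ℕ) (t : ℝ) : Integrable (fun ω => Real.exp (t * Y a H M ω)) μ := by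
  apply Integrable.of_bound ((Real.measurable_exp.comp ((meas_Y hm H M).const_mul t)).aestronglyMeasurable) (Real.exp (|t| * M))
  apply Eventually.of_forall
  intro ω
  rw [Real.norm_eq_abs, Function.comp_apply, abs_of_pos (Real.exp_pos _)]
  apply Real.exp_le_exp.2
  have h := Y_bd a H M ω
  calc t * Y a H M ω ≤ |t| * Y a H M ω := mul_le_mul_of_nonneg_right (le_abs_self t) h.1
    _ ≤ _ := mul_le_mul_of_nonneg_left h.2 (abs_nonneg t)

/-- the lower tail -/
lemma tail (hm : ∀ w, Measurable (a w)) (hi : iIndepFun a μ) (H : ℕ → Finset ℕ) (M : ℕ) (m : ℝ)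
    (hsum : 4 * m ≤ ∑ w ∈ range M, μ.real {ω | a w ω ∈ H w}) :
    μ.real {ω | Y a H M ω ≤ m} ≤ Real.exp (-m) := by
  have h1 := measure_le_le_exp_mul_mgf (μ := μ) (X := Y a H M) (t := -1) m (by norm_num) (int_Y hm H M (-1))
  have h2 : iIndepFun (fun w => ind (H w) ∘ a w) μ := hi.comp _ (fun w => meas_ind (H w))
  have h3 := h2.mgf_sum (t := -1) (fun w => (meas_ind (H w)).comp (hm w)) (range M)
  have h4 : Y a H M = ∑ w ∈ range M, ind (H w) ∘ a w := by
    funext ω
    rw [Finset.sum_apply]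
    rfl
  have e1 : Real.exp (-1) ≤ 1 / 2 := by
    have := Real.exp_one_gt_d9
    rw [Real.exp_neg, inv_eq_one_div]
    apply one_div_le_one_div_of_le (by norm_num) (by linarith)
  have h5 : mgf (Y a H M) μ (-1) ≤ Real.exp (-(2 * m)) := by
    rw [h4, h3]
    calc ∏ w ∈ range M, mgf (ind (H w) ∘ a w) μ (-1) ≤ ∏ w ∈ range M, Real.exp (-(μ.real {ω | a w ω ∈ H w} / 2)) := by
          apply Finset.prod_le_prod
          · intro w _
            exact mgf_nonneg
          · intro w _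
            rw [mgf_ind (hm w)]
            have g1 := Real.add_one_le_exp (-(μ.real {ω | a w ω ∈ H w} / 2))
            have g2 : 0 ≤ μ.real {ω | a w ω ∈ H w} := measureReal_nonneg
            have g3 := mul_le_mul_of_nonneg_left e1 g2
            linarith
      _ = Real.exp (-((∑ w ∈ range M, μ.real {ω | a w ω ∈ H w}) / 2)) := by
          rw [← Real.exp_sum, sum_neg_distrib, sum_div]
      _ ≤ _ := by
          apply Real.exp_le_exp.2
          linarith
  calc μ.real {ω | Y a H M ω ≤ m} ≤ Real.exp (-(-1) * m) * mgf (Y a H M) μ (-1) := h1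
    _ ≤ Real.exp (-(-1) * m) * Real.exp (-(2 * m)) := mul_le_mul_of_nonneg_left h5 (Real.exp_pos _).le
    _ = Real.exp (-m) := by
        rw [← Real.exp_add]
        congr 1
        ring

lemma exp_small (δ : ℝ) (hδ : 0 < δ) : ∀ᶠ n : ℕ in atTop, Real.exp (-(n : ℝ) ^ δ) ≤ 1 / (n : ℝ) ^ 2 := by
  have h := (isLittleO_log_rpow_atTop hδ).bound (show (0 : ℝ) < 1 / 2 by norm_num)
  have h2 := tendsto_natCast_atTop_atTop.eventually h
  filter_upwards [h2, eventually_ge_atTop 1] with n g1 g2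
  have hn : (0 : ℝ) < n := by exact_mod_cast g2
  have hn1 : (1 : ℝ) ≤ n := by exact_mod_cast g2
  rw [Real.norm_of_nonneg (Real.log_nonneg hn1), Real.norm_of_nonneg (by positivity)] at g1
  have e1 : 1 / (n : ℝ) ^ 2 = Real.exp (-(2 * Real.log n)) := by
    rw [Real.exp_neg, two_mul, Real.exp_add, Real.exp_log hn, one_div, sq]
  rw [e1]
  apply Real.exp_le_exp.2
  linarith

/-- all `n` at once -/
theorem law (hm : ∀ w, Measurable (a w)) (hi : iIndepFun a μ) (δ : ℝ) (hδ : 0 < δ) (M : ℕ → ℕ) (H : ℕ → ℕ → Finset ℕ)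
    (P : ℕ → Prop) (hsum : ∀ᶠ n : ℕ in atTop, P n → 4 * (n : ℝ) ^ δ ≤ ∑ w ∈ range (M n), μ.real {ω | a w ω ∈ H n w}) :
    ∀ᵐ ω ∂μ, ∀ᶠ n : ℕ in atTop, P n → (n : ℝ) ^ δ < (((range (M n)).filter fun w => a w ω ∈ H n w).card : ℝ) := by
  classical
  obtain ⟨n0, hn0⟩ := eventually_atTop.1 (hsum.and (exp_small δ hδ))
  have hs2 : Summable fun n : ℕ => 1 / (n : ℝ) ^ 2 := Real.summable_one_div_nat_pow.2 one_lt_two
  have hP : ∀ n : ℕ, n0 ≤ n → μ {ω | P n ∧ Y a (H n) (M n) ω ≤ (n : ℝ) ^ δ} ≤ ENNReal.ofReal (1 / (n : ℝ) ^ 2) := by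
    intro n hn
    by_cases hPn : P n
    · have h1 := tail hm hi (H n) (M n) ((n : ℝ) ^ δ) ((hn0 n hn).1 hPn)
      have h2 : {ω | P n ∧ Y a (H n) (M n) ω ≤ (n : ℝ) ^ δ} = {ω | Y a (H n) (M n) ω ≤ (n : ℝ) ^ δ} := by
        ext ω
        exact ⟨fun h => h.2, fun h => ⟨hPn, h⟩⟩
      rw [h2, ← ENNReal.ofReal_toReal (measure_ne_top μ _)]
      exact ENNReal.ofReal_le_ofReal (h1.trans (hn0 n hn).2)
    · have h2 : {ω | P n ∧ Y a (H n) (M n) ω ≤ (n : ℝ) ^ δ} = ∅ := by
        ext ω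
        simp [hPn]
      rw [h2, measure_empty]
      exact bot_le
  have hfin : ∑' n : ℕ, μ {ω | P (n + n0) ∧ Y a (H (n + n0)) (M (n + n0)) ω ≤ ((n + n0 : ℕ) : ℝ) ^ δ} ≠ ∞ := by
    apply ne_top_of_le_ne_top _ (ENNReal.tsum_le_tsum fun n => hP (n + n0) (by omega))
    rw [← ENNReal.ofReal_tsum_of_nonneg (fun n => by positivity) ((summable_nat_add_iff n0).2 hs2)]
    exact ENNReal.ofReal_ne_top
  filter_upwards [ae_eventually_notMem hfin] with ω hω
  obtain ⟨k, hk⟩ := eventually_atTop.1 hω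
  refine eventually_atTop.2 ⟨k + n0, fun n hn hPn => ?_⟩
  have h5 := hk (n - n0) (by omega)
  rw [Nat.sub_add_cancel (by omega)] at h5
  have h6 : (n : ℝ) ^ δ < Y a (H n) (M n) ω := not_le.1 fun h => h5 ⟨hPn, h⟩
  have h7 : Y a (H n) (M n) ω = (((range (M n)).filter fun w => a w ω ∈ H n w).card : ℝ) := by
    unfold Y
    rw [card_filter]
    push_cast
    apply sum_congr rfl
    intro w _
    unfold ind
    by_cases h : a w ω ∈ H n w
    · rw [Set.indicator_of_mem (by exact h), if_pos h]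
    · rw [Set.indicator_of_notMem (by exact h), if_neg h]
  rw [← h7]
  exact h6

end Pool.Agent.Run7.h189.RC
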