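import Pool.Agent.Run7.h189.RC.Law

/-!
# Random constants, part 6: the law for random variables with values in a countable space
-/

set_option autoImplicit false

namespace Pool.Agent.Run7.h189.RC

open MeasureTheory ProbabilityTheory Filter Finset
open scoped Topology ENNReal

variable {Ω : Type} [MeasurableSpace Ω] {μ : Measure Ω} [IsProbabilityMeasure μ]
  {α : Type} [MeasurableSpace α] [Countable α] [MeasurableSingletonClass α] {a : ℕ → Ω → α}

/-- the indicator function of a finite set -/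
noncomputable def ind2 (H : Finset α) (k : α) : ℝ := (H : Set α).indicator (fun _ => (1 : ℝ)) k

/-- the number of the hits -/
noncomputable def Y2 (a : ℕ → Ω → α) (H : ℕ → Finset α) (M : ℕ) (ω : Ω) : ℝ := ∑ w ∈ range M, ind2 (H w) (a w ω)

lemma meas_ind2 (H : Finset α) : Measurable (ind2 H) := measurable_of_countable _

omit [MeasurableSpace α] [Countable α] [MeasurableSingletonClass α] in
lemma ind2_bd (H : Finset α) (k : α) : 0 ≤ ind2 H k ∧ ind2 H k ≤ 1 := by
  unfold ind2
  exact ⟨Set.indicator_nonneg (fun _ _ => zero_le_one) _, Set.indicator_le_self' (fun _ _ => zero_le_one) _⟩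

omit [Countable α] [IsProbabilityMeasure μ] in
lemma prob_H2 [IsFiniteMeasure μ] {X : Ω → α} (hm : Measurable X) (H : Finset α) (q : ℝ) (hlaw : ∀ k ∈ H, μ.real {ω | X ω = k} = q) :
    μ.real {ω | X ω ∈ H} = (H.card : ℝ) * q := by
  have h1 : {ω | X ω ∈ H} = ⋃ k ∈ H, {ω | X ω = k} := by
    ext ω
    simp
  rw [h1, measureReal_biUnion_finset]
  · rw [sum_congr rfl fun k hk => hlaw k hk, sum_const, nsmul_eq_mul]
  · intro k _ l _ hkl
    rw [Function.onFun, Set.disjoint_left]
    intro ω h2 h3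
    exact hkl (h2.symm.trans h3)
  · intro k _
    exact hm (measurableSet_singleton k)

lemma mgf_ind2 {X : Ω → α} (hm : Measurable X) (H : Finset α) (t : ℝ) :
    mgf (ind2 H ∘ X) μ t = 1 + μ.real {ω | X ω ∈ H} * (Real.exp t - 1) := by
  have hs : MeasurableSet {ω | X ω ∈ H} := hm (Set.to_countable (H : Set α)).measurableSet
  have h1 : ∀ ω, Real.exp (t * (ind2 H ∘ X) ω) = 1 + (Real.exp t - 1) * ({ω | X ω ∈ H}.indicator (fun _ => (1 : ℝ)) ω) := by
    intro ω
    rw [Function.comp_apply]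
    unfold ind2
    by_cases h : X ω ∈ H
    · rw [Set.indicator_of_mem (by exact h), Set.indicator_of_mem (by exact h)]
      ring_nf
    · rw [Set.indicator_of_notMem (by exact h), Set.indicator_of_notMem (by exact h)]
      simp
  unfold mgf
  simp only [h1]
  rw [integral_add (integrable_const _) (((integrable_const (1 : ℝ)).indicator hs).const_mul _), integral_const_mul,
    integral_indicator hs]
  simp only [integral_const, probReal_univ, smul_eq_mul, mul_one, measureReal_restrict_apply_univ]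
  ring

omit [IsProbabilityMeasure μ] in
lemma meas_Y2 (hm : ∀ w, Measurable (a w)) (H : ℕ → Finset α) (M : ℕ) : Measurable (Y2 a H M) := by
  unfold Y2
  exact Finset.measurable_sum _ fun w _ => (meas_ind2 (H w)).comp (hm w)

omit [MeasurableSpace Ω] [MeasurableSpace α] [Countable α] [MeasurableSingletonClass α] in
lemma Y2_bd (a : ℕ → Ω → α) (H : ℕ → Finset α) (M : ℕ) (ω : Ω) : 0 ≤ Y2 a H M ω ∧ Y2 a H M ω ≤ M := by
  unfold Y2
  constructor
  · exact sum_nonneg fun w _ => (ind2_bd _ _).1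
  · calc ∑ w ∈ range M, ind2 (H w) (a w ω) ≤ ∑ _w ∈ range M, (1 : ℝ) := sum_le_sum fun w _ => (ind2_bd _ _).2
      _ = M := by simp

lemma int_Y2 (hm : ∀ w, Measurable (a w)) (H : ℕ → Finset α) (M : ℕ) (t : ℝ) : Integrable (fun ω => Real.exp (t * Y2 a H M ω)) μ := by
  apply Integrable.of_bound ((Real.measurable_exp.comp ((meas_Y2 hm H M).const_mul t)).aestronglyMeasurable) (Real.exp (|t| * M))
  apply Eventually.of_forall
  intro ω
  rw [Real.norm_eq_abs, Function.comp_apply, abs_of_pos (Real.exp_pos _)]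
  apply Real.exp_le_exp.2
  have h := Y2_bd a H M ω
  calc t * Y2 a H M ω ≤ |t| * Y2 a H M ω := mul_le_mul_of_nonneg_right (le_abs_self t) h.1
    _ ≤ _ := mul_le_mul_of_nonneg_left h.2 (abs_nonneg t)

/-- the lower tail -/
lemma tail2 (hm : ∀ w, Measurable (a w)) (hi : iIndepFun a μ) (H : ℕ → Finset α) (M : ℕ) (m : ℝ)
    (hsum : 4 * m ≤ ∑ w ∈ range M, μ.real {ω | a w ω ∈ H w}) :
    μ.real {ω | Y2 a H M ω ≤ m} ≤ Real.exp (-m) := by
  have h1 := measure_le_le_exp_mul_mgf (μ := μ) (X := Y2 a H M) (t := -1) m (by norm_num) (int_Y2 hm H M (-1))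
  have h2 : iIndepFun (fun w => ind2 (H w) ∘ a w) μ := hi.comp _ (fun w => meas_ind2 (H w))
  have h3 := h2.mgf_sum (t := -1) (fun w => (meas_ind2 (H w)).comp (hm w)) (range M)
  have h4 : Y2 a H M = ∑ w ∈ range M, ind2 (H w) ∘ a w := by
    funext ω
    rw [Finset.sum_apply]
    rfl
  have e1 : Real.exp (-1) ≤ 1 / 2 := by
    have := Real.exp_one_gt_d9
    rw [Real.exp_neg, inv_eq_one_div]
    apply one_div_le_one_div_of_le (by norm_num) (by linarith)
  have h5 : mgf (Y2 a H M) μ (-1) ≤ Real.exp (-(2 * m)) := by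
    rw [h4, h3]
    calc ∏ w ∈ range M, mgf (ind2 (H w) ∘ a w) μ (-1) ≤ ∏ w ∈ range M, Real.exp (-(μ.real {ω | a w ω ∈ H w} / 2)) := by
          apply Finset.prod_le_prod
          · intro w _
            exact mgf_nonneg
          · intro w _
            rw [mgf_ind2 (hm w)]
            have g1 := Real.add_one_le_exp (-(μ.real {ω | a w ω ∈ H w} / 2))
            have g2 : 0 ≤ μ.real {ω | a w ω ∈ H w} := measureReal_nonneg
            have g3 := mul_le_mul_of_nonneg_left e1 g2
            linarith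
      _ = Real.exp (-((∑ w ∈ range M, μ.real {ω | a w ω ∈ H w}) / 2)) := by
          rw [← Real.exp_sum, sum_neg_distrib, sum_div]
      _ ≤ _ := by
          apply Real.exp_le_exp.2
          linarith
  calc μ.real {ω | Y2 a H M ω ≤ m} ≤ Real.exp (-(-1) * m) * mgf (Y2 a H M) μ (-1) := h1
    _ ≤ Real.exp (-(-1) * m) * Real.exp (-(2 * m)) := mul_le_mul_of_nonneg_left h5 (Real.exp_pos _).le
    _ = Real.exp (-m) := by
        rw [← Real.exp_add]
        congr 1
        ring

/-- all `n` at once -/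
theorem law2 (hm : ∀ w, Measurable (a w)) (hi : iIndepFun a μ) (m : ℕ → ℝ) (hmn : ∀ᶠ n : ℕ in atTop, 2 * Real.log n ≤ m n) (M : ℕ → ℕ)
    (H : ℕ → ℕ → Finset α) (P : ℕ → Prop) (hsum : ∀ᶠ n : ℕ in atTop, P n → 4 * m n ≤ ∑ w ∈ range (M n), μ.real {ω | a w ω ∈ H n w}) :
    ∀ᵐ ω ∂μ, ∀ᶠ n : ℕ in atTop, P n → ∃ W : Finset ℕ, m n < (W.card : ℝ) ∧ ∀ w ∈ W, w < M n ∧ a w ω ∈ H n w := by
  classical
  obtain ⟨n0, hn0⟩ := eventually_atTop.1 (hsum.and hmn)
  have hs2 : Summable fun n : ℕ => 1 / (n : ℝ) ^ 2 := Real.summable_one_div_nat_pow.2 one_lt_two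
  have hP : ∀ n : ℕ, n0 + 1 ≤ n → μ {ω | P n ∧ Y2 a (H n) (M n) ω ≤ m n} ≤ ENNReal.ofReal (1 / (n : ℝ) ^ 2) := by
    intro n hn
    have hnp : (0 : ℝ) < n := by exact_mod_cast (by omega : 0 < n)
    by_cases hPn : P n
    · have h1 := tail2 hm hi (H n) (M n) (m n) ((hn0 n (by omega)).1 hPn)
      have h2 : {ω | P n ∧ Y2 a (H n) (M n) ω ≤ m n} = {ω | Y2 a (H n) (M n) ω ≤ m n} := by
        ext ω
        exact ⟨fun h => h.2, fun h => ⟨hPn, h⟩⟩
      have e1 : 1 / (n : ℝ) ^ 2 = Real.exp (-(2 * Real.log n)) := by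
        rw [Real.exp_neg, two_mul, Real.exp_add, Real.exp_log hnp, one_div, sq]
      rw [h2, ← ENNReal.ofReal_toReal (measure_ne_top μ _), e1]
      refine ENNReal.ofReal_le_ofReal (h1.trans (Real.exp_le_exp.2 ?_))
      linarith [(hn0 n (by omega)).2]
    · have h2 : {ω | P n ∧ Y2 a (H n) (M n) ω ≤ m n} = ∅ := by
        ext ω
        simp [hPn]
      rw [h2, measure_empty]
      exact bot_le
  have hfin : ∑' n : ℕ, μ {ω | P (n + (n0 + 1)) ∧ Y2 a (H (n + (n0 + 1))) (M (n + (n0 + 1))) ω ≤ m (n + (n0 + 1))} ≠ ∞ := by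
    apply ne_top_of_le_ne_top _ (ENNReal.tsum_le_tsum fun n => hP (n + (n0 + 1)) (by omega))
    rw [← ENNReal.ofReal_tsum_of_nonneg (fun n => by positivity) ((summable_nat_add_iff (n0 + 1)).2 hs2)]
    exact ENNReal.ofReal_ne_top
  filter_upwards [ae_eventually_notMem hfin] with ω hω
  obtain ⟨k, hk⟩ := eventually_atTop.1 hω
  refine eventually_atTop.2 ⟨k + (n0 + 1), fun n hn hPn => ?_⟩
  have h5 := hk (n - (n0 + 1)) (by omega)
  rw [Nat.sub_add_cancel (by omega)] at h5
  have h6 : m n < Y2 a (H n) (M n) ω := not_le.1 fun h => h5 ⟨hPn, h⟩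
  refine ⟨(range (M n)).filter fun w => a w ω ∈ H n w, ?_, ?_⟩
  · have h7 : Y2 a (H n) (M n) ω = (((range (M n)).filter fun w => a w ω ∈ H n w).card : ℝ) := by
      unfold Y2
      rw [card_filter]
      push_cast
      apply sum_congr rfl
      intro w _
      unfold ind2
      by_cases h : a w ω ∈ H n w
      · rw [Set.indicator_of_mem (by exact h), if_pos h]
      · rw [Set.indicator_of_notMem (by exact h), if_neg h]
    rw [← h7]
    exact h6
  · intro w hw
    rw [mem_filter, mem_range] at hw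
    exact hw

end Pool.Agent.Run7.h189.RC
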