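import Pool.Agent.Run7.h189.RC.Rep
import Pool.Agent.TH696.FA.Final3

/-!
# Random constants, part 5: the general theorem, and the existence of the model
-/

set_option autoImplicit false

namespace Pool.Agent.Run7.h189.RC

open MeasureTheory ProbabilityTheory Filter Finset
open scoped Topology ENNReal

variable {Ω : Type} [MeasurableSpace Ω] {μ : Measure Ω} [IsProbabilityMeasure μ] {a : ℕ → Ω → ℕ}

open Classical in
theorem general (η : ℝ) (hη : 0 < η) (hη1 : η < 1 / 2) (hm : ∀ w, Measurable (a w)) (hi : iIndepFun a μ)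
    (hlaw : ∀ w k, 1 ≤ k → k ≤ 2 ^ len η w → μ.real {ω | a w ω = k} = 1 / 2 ^ len η w) (c C : ℝ) (hc : 0 < c) (hC : 0 < C)
    (b : ℕ × ℕ × ℕ × ℕ → ℕ) (R : ℕ → ℕ × ℕ × ℕ × ℕ → Prop)
    (hS : ∀ n : ℕ, Odd n → ∃ S : Finset (ℕ × ℕ × ℕ × ℕ), c * (n : ℝ) ^ (1 - η / 12) ≤ S.card ∧ ∀ v ∈ S, R n v)
    (h1 : ∀ n v, R n v → v.2.2.2 ≤ Nat.sqrt n)
    (h2 : ∀ n : ℕ, 1 ≤ n → ∀ (F : Finset (ℕ × ℕ × ℕ × ℕ)) (w : ℕ), (∀ v ∈ F, R n v ∧ v.2.2.2 = w) → (F.card : ℝ) ≤ C * (n : ℝ) ^ (1 / 2 + η / 12))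
    (h3 : ∀ n (F : Finset (ℕ × ℕ × ℕ × ℕ)) (w B : ℕ), (∀ v ∈ F, R n v ∧ v.2.2.2 = w ∧ b v = B) → F.card ≤ 12)
    (h4 : ∀ n v, R n v → b v ≤ 2 ^ (4 * (Nat.sqrt n + 1))) :
    ∀ᵐ ω ∂μ, ∀ᶠ n : ℕ in atTop, Odd n →
      (n : ℝ) ^ (1 / 2 - η) < (((range (Nat.sqrt n + 1)).filter fun w => ∃ v, v.2.2.2 = w ∧ R n v ∧ (b v + a w ω).Prime).card : ℝ) := by
  have hS' : ∀ n : ℕ, ∃ S : Finset (ℕ × ℕ × ℕ × ℕ), (Odd n → c * (n : ℝ) ^ (1 - η / 12) ≤ S.card) ∧ ∀ v ∈ S, R n v := by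
    intro n
    by_cases h : Odd n
    · obtain ⟨S, g1, g2⟩ := hS n h
      exact ⟨S, fun _ => g1, g2⟩
    · exact ⟨∅, fun g => absurd g h, fun v hv => absurd hv (notMem_empty v)⟩
  choose S hS1 hS2 using hS'
  obtain ⟨H, hH⟩ : ∃ H : ℕ → ℕ → Finset ℕ, ∀ n w, H n w = hits (base (S n) b w) (len η w) :=
    ⟨fun n w => hits (base (S n) b w) (len η w), fun _ _ => rfl⟩
  have hpr : ∀ n w, μ.real {ω | a w ω ∈ H n w} = ((H n w).card : ℝ) / 2 ^ len η w := by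
    intro n w
    apply prob_H (hm w) (H n w) (len η w) _ (hlaw w)
    intro k hk
    rw [hH] at hk
    unfold hits at hk
    rw [mem_filter, mem_Icc] at hk
    exact hk.1
  have hsum : ∀ᶠ n : ℕ in atTop, Odd n → 4 * (n : ℝ) ^ (1 / 2 - η) ≤ ∑ w ∈ range (Nat.sqrt n + 1), μ.real {ω | a w ω ∈ H n w} := by
    filter_upwards [engine η hη hη1 c C hc hC, eventually_ge_atTop 1] with n hn hn1 hodd
    have e : ∑ w ∈ range (Nat.sqrt n + 1), μ.real {ω | a w ω ∈ H n w} =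
        ∑ w ∈ range (Nat.sqrt n + 1), ((hits (base (S n) b w) (len η w)).card : ℝ) / 2 ^ (len η w) :=
      sum_congr rfl fun w _ => by rw [hpr, hH]
    rw [e]
    apply hn (S n) b (hS1 n hodd)
    · exact fun v hv => h1 n v (hS2 n v hv)
    · exact fun w => h2 n hn1 _ w (fun v hv => ⟨hS2 n v (mem_filter.1 hv).1, (mem_filter.1 hv).2⟩)
    · exact fun w B => h3 n _ w B (fun v hv => ⟨hS2 n v (mem_filter.1 (mem_filter.1 hv).1).1, (mem_filter.1 (mem_filter.1 hv).1).2, (mem_filter.1 hv).2⟩)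
    · exact fun v hv => h4 n v (hS2 n v hv)
  filter_upwards [law hm hi (1 / 2 - η) (by linarith) (fun n => Nat.sqrt n + 1) H Odd hsum] with ω hω
  filter_upwards [hω] with n hn hodd
  refine (hn hodd).trans_le ?_
  have : (range (Nat.sqrt n + 1)).filter (fun w => a w ω ∈ H n w) ⊆
      (range (Nat.sqrt n + 1)).filter fun w => ∃ v, v.2.2.2 = w ∧ R n v ∧ (b v + a w ω).Prime := by
    intro w hw
    rw [mem_filter] at hw ⊢
    refine ⟨hw.1, ?_⟩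
    have h5 := hw.2
    rw [hH] at h5
    unfold hits base at h5
    rw [mem_filter] at h5
    obtain ⟨-, B, hB, hp⟩ := h5
    rw [mem_image] at hB
    obtain ⟨v, hv, rfl⟩ := hB
    rw [mem_filter] at hv
    exact ⟨v, hv.2, hS2 n v hv.1, hp⟩
  exact_mod_cast card_le_card this

/-- the constants are in the intervals -/
lemma range_ae (η : ℝ) (hm : ∀ w, Measurable (a w))
    (hlaw : ∀ w k, 1 ≤ k → k ≤ 2 ^ len η w → μ.real {ω | a w ω = k} = 1 / 2 ^ len η w) :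
    ∀ᵐ ω ∂μ, ∀ w, 1 ≤ a w ω ∧ a w ω ≤ 2 ^ len η w := by
  rw [ae_all_iff]
  intro w
  have h1 := prob_H (hm w) (Icc 1 (2 ^ len η w)) (len η w) (fun k hk => mem_Icc.1 hk) (hlaw w)
  have hs : MeasurableSet {ω | a w ω ∈ Icc 1 (2 ^ len η w)} := hm w (Set.to_countable ((Icc 1 (2 ^ len η w) : Finset ℕ) : Set ℕ)).measurableSet
  have h2 : μ.real {ω | a w ω ∈ Icc 1 (2 ^ len η w)} = 1 := by
    rw [h1, Nat.card_Icc]
    simp
  have h3 : μ {ω | a w ω ∈ Icc 1 (2 ^ len η w)} = 1 := by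
    rw [Measure.real, ENNReal.toReal_eq_one_iff] at h2
    exact h2
  have h4 := (prob_compl_eq_zero_iff hs).2 h3
  rw [ae_iff]
  rw [← h4]
  congr 1
  ext ω
  simp

/-- the model exists -/
lemma exists_model (L : ℕ → ℕ) : ∃ (Ω : Type) (_ : MeasurableSpace Ω) (μ : Measure Ω) (_ : IsProbabilityMeasure μ) (a : ℕ → Ω → ℕ),
    (∀ w, Measurable (a w)) ∧ iIndepFun a μ ∧ ∀ w k, 1 ≤ k → k ≤ 2 ^ L w → μ.real {ω | a w ω = k} = 1 / 2 ^ L w := by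
  classical
  have hne : ∀ w, (Icc 1 (2 ^ L w)).Nonempty := fun w => nonempty_Icc.2 Nat.one_le_two_pow
  obtain ⟨Ω, _, μ, a, hm, hl, hi, hp⟩ := exists_hasLaw_indepFun (ι := ℕ) (fun _ => ℕ) (fun w => (PMF.uniformOfFinset _ (hne w)).toMeasure)
  refine ⟨Ω, _, μ, hp, a, hm, hi, fun w k h1 h2 => ?_⟩
  have h3 : μ {ω | a w ω = k} = (PMF.uniformOfFinset _ (hne w)).toMeasure {k} := by
    rw [← (hl w).map_eq, Measure.map_apply (hm w) (measurableSet_singleton k)]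
    rfl
  rw [Measure.real, h3, PMF.toMeasure_apply_singleton _ _ (measurableSet_singleton k), PMF.uniformOfFinset_apply_of_mem _ (mem_Icc.2 ⟨h1, h2⟩),
    Nat.card_Icc]
  simp

end Pool.Agent.Run7.h189.RC
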