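import Pool.Agent.Run7.h189.RC.Law
import Pool.Agent.W65.CS.R2

/-!
# Random constants, part 4: the fibres
-/

set_option autoImplicit false

namespace Pool.Agent.Run7.h189.RC

open Finset

lemma pow_sum_aux {a b c d : ℕ} (hab : a ≤ b) (hcd : c ≤ d) (h : 2 ^ a + 2 ^ b = 2 ^ c + 2 ^ d) : a = c ∧ b = d := by
  have key : ∀ {a b c d : ℕ}, a ≤ b → c ≤ d → 2 ^ a + 2 ^ b = 2 ^ c + 2 ^ d → ¬ b < d := by
    intro a b c d hab hcd h hlt
    have h1 : 2 ^ a ≤ 2 ^ b := Nat.pow_le_pow_right (by norm_num) hab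
    have h2 : 2 ^ (b + 1) ≤ 2 ^ d := Nat.pow_le_pow_right (by norm_num) hlt
    have h3 : 0 < 2 ^ c := by positivity
    rw [pow_succ] at h2
    omega
  have h1 := key hab hcd h
  have h2 := key hcd hab h.symm
  have h3 : b = d := by omega
  subst h3
  have h4 : 2 ^ a = 2 ^ c := by omega
  exact ⟨Nat.pow_right_injective le_rfl h4, rfl⟩

lemma pow_sum {a b c d : ℕ} (h : 2 ^ a + 2 ^ b = 2 ^ c + 2 ^ d) : (a = c ∧ b = d) ∨ (a = d ∧ b = c) := by
  rcases le_total a b with h1 | h1 <;> rcases le_total c d with h2 | h2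
  · exact Or.inl (pow_sum_aux h1 h2 h)
  · have := pow_sum_aux h1 h2 (by omega)
    exact Or.inr this
  · have := pow_sum_aux h1 h2 (by omega)
    exact Or.inr ⟨this.2, this.1⟩
  · have := pow_sum_aux h1 h2 (by omega)
    exact Or.inl ⟨this.2, this.1⟩

lemma two_le (F : Finset (ℕ × ℕ × ℕ × ℕ)) (p q r : ℕ × ℕ × ℕ × ℕ → ℕ) (M s : ℕ)
    (hinj : ∀ v ∈ F, ∀ v' ∈ F, p v = p v' → q v = q v' → r v = r v' → v = v')
    (hs : ∀ v ∈ F, 2 ^ (q v) + 2 ^ (r v) = s) (hp : ∀ v ∈ F, p v = M) : F.card ≤ 2 := by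
  classical
  rcases F.eq_empty_or_nonempty with he | ⟨v0, h0⟩
  · rw [he]; simp
  have h1 : F.card ≤ (univ : Finset Bool).card := by
    apply card_le_card_of_injOn (fun v => decide (q v = q v0)) (fun v _ => mem_univ _)
    intro v hv v' hv' h
    rw [mem_coe] at hv hv'
    simp only [decide_eq_decide] at h
    have g1 := pow_sum (a := q v) (b := r v) (c := q v0) (d := r v0) ((hs v hv).trans (hs v0 h0).symm)
    have g2 := pow_sum (a := q v') (b := r v') (c := q v0) (d := r v0) ((hs v' hv').trans (hs v0 h0).symm)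
    have g3 : p v = p v' := (hp v hv).trans (hp v' hv').symm
    by_cases hc : q v = q v0
    · have hc' := h.1 hc
      exact hinj v hv v' hv' g3 (by omega) (by omega)
    · have hc' : ¬ q v' = q v0 := fun h' => hc (h.2 h')
      exact hinj v hv v' hv' g3 (by omega) (by omega)
  simpa using h1

lemma log_max {x y z : ℕ} (h1 : y ≤ x) (h2 : z ≤ x) :
    x = Nat.log 2 (2 ^ x + 2 ^ y + 2 ^ z) ∨ x = Nat.log 2 (2 ^ x + 2 ^ y + 2 ^ z) - 1 := by
  have h3 : 2 ^ y ≤ 2 ^ x := Nat.pow_le_pow_right (by norm_num) h1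
  have h4 : 2 ^ z ≤ 2 ^ x := Nat.pow_le_pow_right (by norm_num) h2
  have h0 : 1 ≤ 2 ^ x := Nat.one_le_two_pow
  have h0y : 1 ≤ 2 ^ y := Nat.one_le_two_pow
  have h0z : 1 ≤ 2 ^ z := Nat.one_le_two_pow
  have h5 : x ≤ Nat.log 2 (2 ^ x + 2 ^ y + 2 ^ z) := Nat.le_log_of_pow_le (by norm_num) (by omega)
  have h6 : Nat.log 2 (2 ^ x + 2 ^ y + 2 ^ z) < x + 2 := by
    apply Nat.log_lt_of_lt_pow (by omega)
    have : 2 ^ (x + 2) = 4 * 2 ^ x := by ring
    omega
  omega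

/-- the fibres of `2 ^ x + 2 ^ y + 2 ^ z` for a given `w` -/
lemma fibreA (F : Finset (ℕ × ℕ × ℕ × ℕ)) (w B : ℕ) (hF : ∀ v ∈ F, v.2.2.2 = w ∧ 2 ^ v.1 + 2 ^ v.2.1 + 2 ^ v.2.2.1 = B) :
    F.card ≤ 12 := by
  classical
  obtain ⟨L, hL⟩ : ∃ L, L = Nat.log 2 B := ⟨_, rfl⟩
  have inj : ∀ v ∈ F, ∀ v' ∈ F, v.1 = v'.1 → v.2.1 = v'.2.1 → v.2.2.1 = v'.2.2.1 → v = v' := by
    intro v hv v' hv' h1 h2 h3
    have h4 := (hF v hv).1.trans (hF v' hv').1.symm
    exact Prod.ext h1 (Prod.ext h2 (Prod.ext h3 h4))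
  have hx : ∀ M, (F.filter (fun v => v.1 = M)).card ≤ 2 := by
    intro M
    apply two_le _ (fun v => v.1) (fun v => v.2.1) (fun v => v.2.2.1) M (B - 2 ^ M)
    · intro v hv v' hv' g1 g2 g3
      exact inj v (mem_filter.1 hv).1 v' (mem_filter.1 hv').1 g1 g2 g3
    · intro v hv
      obtain ⟨g1, g2⟩ := mem_filter.1 hv
      have g3 := (hF v g1).2
      rw [g2] at g3
      have k1 : 1 ≤ 2 ^ M := Nat.one_le_two_pow
      have k2 : 1 ≤ 2 ^ v.1 := Nat.one_le_two_pow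
      have k3 : 1 ≤ 2 ^ v.2.1 := Nat.one_le_two_pow
      have k4 : 1 ≤ 2 ^ v.2.2.1 := Nat.one_le_two_pow
      omega
    · intro v hv
      exact (mem_filter.1 hv).2
  have hy : ∀ M, (F.filter (fun v => v.2.1 = M)).card ≤ 2 := by
    intro M
    apply two_le _ (fun v => v.2.1) (fun v => v.1) (fun v => v.2.2.1) M (B - 2 ^ M)
    · intro v hv v' hv' g1 g2 g3
      exact inj v (mem_filter.1 hv).1 v' (mem_filter.1 hv').1 g2 g1 g3
    · intro v hv
      obtain ⟨g1, g2⟩ := mem_filter.1 hv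
      have g3 := (hF v g1).2
      rw [g2] at g3
      have k1 : 1 ≤ 2 ^ M := Nat.one_le_two_pow
      have k2 : 1 ≤ 2 ^ v.1 := Nat.one_le_two_pow
      have k3 : 1 ≤ 2 ^ v.2.1 := Nat.one_le_two_pow
      have k4 : 1 ≤ 2 ^ v.2.2.1 := Nat.one_le_two_pow
      omega
    · intro v hv
      exact (mem_filter.1 hv).2
  have hz : ∀ M, (F.filter (fun v => v.2.2.1 = M)).card ≤ 2 := by
    intro M
    apply two_le _ (fun v => v.2.2.1) (fun v => v.1) (fun v => v.2.1) M (B - 2 ^ M)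
    · intro v hv v' hv' g1 g2 g3
      exact inj v (mem_filter.1 hv).1 v' (mem_filter.1 hv').1 g2 g3 g1
    · intro v hv
      obtain ⟨g1, g2⟩ := mem_filter.1 hv
      have g3 := (hF v g1).2
      rw [g2] at g3
      have k1 : 1 ≤ 2 ^ M := Nat.one_le_two_pow
      have k2 : 1 ≤ 2 ^ v.1 := Nat.one_le_two_pow
      have k3 : 1 ≤ 2 ^ v.2.1 := Nat.one_le_two_pow
      have k4 : 1 ≤ 2 ^ v.2.2.1 := Nat.one_le_two_pow
      omega
    · intro v hv
      exact (mem_filter.1 hv).2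
  have hsub : F ⊆ ((F.filter (fun v => v.1 = L) ∪ F.filter (fun v => v.1 = L - 1)) ∪
      (F.filter (fun v => v.2.1 = L) ∪ F.filter (fun v => v.2.1 = L - 1))) ∪
      (F.filter (fun v => v.2.2.1 = L) ∪ F.filter (fun v => v.2.2.1 = L - 1)) := by
    intro v hv
    have g3 := (hF v hv).2
    simp only [mem_union, mem_filter]
    rcases le_total v.2.1 v.1 with h1 | h1
    · rcases le_total v.2.2.1 v.1 with h2 | h2
      · have := log_max h1 h2
        rw [g3, ← hL] at this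
        tauto
      · have := log_max (x := v.2.2.1) (y := v.1) (z := v.2.1) h2 (h1.trans h2)
        rw [show 2 ^ v.2.2.1 + 2 ^ v.1 + 2 ^ v.2.1 = B by omega, ← hL] at this
        tauto
    · rcases le_total v.2.2.1 v.2.1 with h2 | h2
      · have := log_max (x := v.2.1) (y := v.1) (z := v.2.2.1) h1 h2
        rw [show 2 ^ v.2.1 + 2 ^ v.1 + 2 ^ v.2.2.1 = B by omega, ← hL] at this
        tauto
      · have := log_max (x := v.2.2.1) (y := v.1) (z := v.2.1) (h1.trans h2) h2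
        rw [show 2 ^ v.2.2.1 + 2 ^ v.1 + 2 ^ v.2.1 = B by omega, ← hL] at this
        tauto
  have c1 := card_le_card hsub
  have c2 := card_union_le ((F.filter (fun v => v.1 = L) ∪ F.filter (fun v => v.1 = L - 1)) ∪
      (F.filter (fun v => v.2.1 = L) ∪ F.filter (fun v => v.2.1 = L - 1)))
      (F.filter (fun v => v.2.2.1 = L) ∪ F.filter (fun v => v.2.2.1 = L - 1))
  have c3 := card_union_le (F.filter (fun v => v.1 = L) ∪ F.filter (fun v => v.1 = L - 1))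
      (F.filter (fun v => v.2.1 = L) ∪ F.filter (fun v => v.2.1 = L - 1))
  have c4 := card_union_le (F.filter (fun v => v.1 = L)) (F.filter (fun v => v.1 = L - 1))
  have c5 := card_union_le (F.filter (fun v => v.2.1 = L)) (F.filter (fun v => v.2.1 = L - 1))
  have c6 := card_union_le (F.filter (fun v => v.2.2.1 = L)) (F.filter (fun v => v.2.2.1 = L - 1))
  have d1 := hx L
  have d2 := hx (L - 1)
  have d3 := hy L
  have d4 := hy (L - 1)
  have d5 := hz L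
  have d6 := hz (L - 1)
  omega

/-- two numbers with a given sum and a given sum of squares -/
lemma sum_sq {x y x' y' : ℕ} (h1 : x + y = x' + y') (h2 : x ^ 2 + y ^ 2 = x' ^ 2 + y' ^ 2) (h3 : x ≤ y ↔ x' ≤ y') :
    x = x' ∧ y = y' := by
  have e1 : ((x : ℤ) - x') * (x - y') = 0 := by
    have g1 : (y : ℤ) = x' + y' - x := by
      have : (x : ℤ) + y = x' + y' := by exact_mod_cast h1
      linarith
    have g2 : (x : ℤ) ^ 2 + y ^ 2 = x' ^ 2 + y' ^ 2 := by exact_mod_cast h2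
    rw [g1] at g2
    nlinarith
  rcases mul_eq_zero.1 e1 with h | h
  · have : x = x' := by omega
    exact ⟨this, by omega⟩
  · have h4 : x = y' := by omega
    have h5 : y = x' := by omega
    rcases le_or_gt x y with h6 | h6
    · have := h3.1 h6
      omega
    · have := mt h3.2 (by omega)
      omega

/-- the fibres of `2 ^ (x + y) + 2 ^ (z + w)` for a given `w` and a given sum of squares -/
lemma fibreB (F : Finset (ℕ × ℕ × ℕ × ℕ)) (n w B : ℕ) (hF : ∀ v ∈ F, v.2.2.2 = w ∧ n = v.1 ^ 2 + v.2.1 ^ 2 + v.2.2.1 ^ 2 + v.2.2.2 ^ 2 ∧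
    2 ^ (v.1 + v.2.1) + 2 ^ (v.2.2.1 + v.2.2.2) = B) : F.card ≤ 12 := by
  classical
  rcases F.eq_empty_or_nonempty with he | ⟨v0, h0⟩
  · rw [he]; simp
  have h1 : F.card ≤ (univ : Finset (Bool × Bool)).card := by
    apply card_le_card_of_injOn (fun v => (decide (v.1 + v.2.1 = v0.1 + v0.2.1), decide (v.1 ≤ v.2.1))) (fun v _ => mem_univ _)
    intro v hv v' hv' h
    rw [mem_coe] at hv hv'
    simp only [Prod.mk.injEq, decide_eq_decide] at h
    obtain ⟨a1, a2, a3⟩ := hF v hv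
    obtain ⟨b1, b2, b3⟩ := hF v' hv'
    obtain ⟨c1, c2, c3⟩ := hF v0 h0
    have g1 := pow_sum (a3.trans c3.symm)
    have g2 := pow_sum (b3.trans c3.symm)
    have hboth : v.1 + v.2.1 = v'.1 + v'.2.1 ∧ v.2.2.1 + v.2.2.2 = v'.2.2.1 + v'.2.2.2 := by
      by_cases hc : v.1 + v.2.1 = v0.1 + v0.2.1
      · have hc' := h.1.1 hc
        omega
      · have hc' : ¬ v'.1 + v'.2.1 = v0.1 + v0.2.1 := fun h' => hc (h.1.2 h')
        omega
    have hz : v.2.2.1 = v'.2.2.1 := by omega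
    have hw : v.2.2.2 = v'.2.2.2 := by omega
    rw [hz, hw] at a2
    have hxy := sum_sq hboth.1 (by omega) h.2
    exact Prod.ext hxy.1 (Prod.ext hxy.2 (Prod.ext hz hw))
  have h2 : (univ : Finset (Bool × Bool)).card = 4 := rfl
  omega

/-- the number of the representations of `m` as a sum of three squares -/
lemma fibreW (ε : ℝ) (hε : 0 < ε) : ∃ C : ℝ, 0 < C ∧ ∀ n : ℕ, 1 ≤ n → ∀ F : Finset (ℕ × ℕ × ℕ × ℕ), ∀ m w : ℕ, m ≤ n →
    (∀ v ∈ F, v.2.2.2 = w ∧ v.1 ^ 2 + v.2.1 ^ 2 + v.2.2.1 ^ 2 = m) → (F.card : ℝ) ≤ C * (n : ℝ) ^ (1 / 2 + ε) := by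
  classical
  obtain ⟨C, hC, h⟩ := Pool.Agent.W65.CS.R2_bound ε hε
  refine ⟨2 * C, by linarith, fun n hn F m w hm hF => ?_⟩
  have hn0 : (0 : ℝ) < n := by exact_mod_cast hn
  have h1 : F.card = ∑ z ∈ range (Nat.sqrt n + 1), (F.filter fun v => v.2.2.1 = z).card := by
    apply card_eq_sum_card_fiberwise
    intro v hv
    rw [mem_coe] at hv
    have h2 := (hF v hv).2
    rw [mem_coe, mem_range, Nat.lt_succ_iff, Nat.le_sqrt']
    simp only
    omega
  have h2 : ∀ z, ((F.filter fun v => v.2.2.1 = z).card : ℝ) ≤ C * (n : ℝ) ^ ε := by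
    intro z
    refine le_trans ?_ (h (m - z ^ 2) n (by omega) hn)
    have : (F.filter fun v => v.2.2.1 = z).card ≤ (Pool.Agent.W65.CS.R2 (m - z ^ 2)).card := by
      apply card_le_card_of_injOn (fun v => ((v.1 : ℤ), (v.2.1 : ℤ)))
      · intro v hv
        rw [mem_coe, mem_filter] at hv
        obtain ⟨g1, g2⟩ := hv
        have g3 := (hF v g1).2
        rw [mem_coe, Pool.Agent.W65.CS.mem_R2]
        rw [g2] at g3
        have g4 : v.1 ^ 2 + v.2.1 ^ 2 = m - z ^ 2 := by omega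
        exact_mod_cast g4
      · intro v hv v' hv' hvv
        rw [mem_coe, mem_filter] at hv hv'
        simp only [Prod.mk.injEq, Nat.cast_inj] at hvv
        exact Prod.ext hvv.1 (Prod.ext hvv.2 (Prod.ext (hv.2.trans hv'.2.symm) ((hF v hv.1).1.trans (hF v' hv'.1).1.symm)))
    exact_mod_cast this
  have h3 : (F.card : ℝ) ≤ ∑ _z ∈ range (Nat.sqrt n + 1), C * (n : ℝ) ^ ε := by
    rw [h1]
    push_cast
    exact sum_le_sum fun z _ => h2 z
  rw [sum_const, card_range, nsmul_eq_mul] at h3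
  have h4 : ((Nat.sqrt n + 1 : ℕ) : ℝ) ≤ 2 * (n : ℝ) ^ (1 / 2 : ℝ) := by
    have g1 : ((Nat.sqrt n : ℕ) : ℝ) ≤ (n : ℝ) ^ (1 / 2 : ℝ) := by
      rw [← Real.sqrt_eq_rpow]
      exact Real.nat_sqrt_le_real_sqrt
    have g2 : (1 : ℝ) ≤ (n : ℝ) ^ (1 / 2 : ℝ) := Real.one_le_rpow (by exact_mod_cast hn) (by norm_num)
    push_cast
    linarith
  calc (F.card : ℝ) ≤ ((Nat.sqrt n + 1 : ℕ) : ℝ) * (C * (n : ℝ) ^ ε) := h3
    _ ≤ (2 * (n : ℝ) ^ (1 / 2 : ℝ)) * (C * (n : ℝ) ^ ε) := mul_le_mul_of_nonneg_right h4 (by positivity)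
    _ = 2 * C * ((n : ℝ) ^ (1 / 2 : ℝ) * (n : ℝ) ^ ε) := by ring
    _ = 2 * C * (n : ℝ) ^ (1 / 2 + ε) := by rw [← Real.rpow_add hn0]

end Pool.Agent.Run7.h189.RC
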