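import Pool.Agent.Run7.h189.RC.Law2
import Pool.Agent.H141R2.FS.Three
import Pool.Agent.H565R2.NS.Tsq

/-!
# Random constants, part 7: two primes, sums of four squares
-/

set_option autoImplicit false

namespace Pool.Agent.Run7.h189.RC

open MeasureTheory ProbabilityTheory Filter Finset
open scoped Topology ENNReal
open Pool.Agent.Run7.h931.RS (Dc pnt_lo)

/-- the length of the intervals of the constants -/
noncomputable def size (A w : ℕ) : ℕ := ⌈((w : ℝ) + 1) ^ 2 / Real.log (w + 2) ^ A⌉₊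

lemma size_pos (A w : ℕ) : 1 ≤ size A w := by
  unfold size
  have h : 0 < Real.log ((w : ℝ) + 2) := Real.log_pos (by have := Nat.cast_nonneg (α := ℝ) w; linarith)
  exact Nat.one_le_ceil_iff.2 (by positivity)

/-- the primes in the intervals -/
lemma many_primes (A : ℕ) : ∃ w0 : ℕ, ∀ w : ℕ, w0 ≤ w → ∀ x : ℕ, x ≤ 28 * (w + 1) ^ 2 →
    (size A w : ℝ) / (4 * Real.log (w + 1)) ≤ (((Icc 1 (size A w)).filter fun a => (x + a).Prime).card : ℝ) := by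
  obtain ⟨K, hK, h1⟩ := pnt_lo 27 (A + 1)
  have ht : Tendsto (fun w : ℕ => (w + 1) ^ 2) atTop atTop :=
    tendsto_atTop_mono (fun w => by nlinarith : ∀ w : ℕ, w ≤ (w + 1) ^ 2) tendsto_id
  have hl : Tendsto (fun w : ℕ => Real.log ((w : ℝ) + 1)) atTop atTop :=
    Real.tendsto_log_atTop.comp (tendsto_atTop_add_const_right _ _ tendsto_natCast_atTop_atTop)
  obtain ⟨n0, hn0⟩ := eventually_atTop.1 ((ht.eventually h1).and (hl.eventually_ge_atTop (K + 1)))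
  refine ⟨n0 + 3, ?_⟩
  intro w hw x hx
  obtain ⟨g1, g2⟩ := hn0 w (by omega)
  have hw3 : (3 : ℝ) ≤ w := by exact_mod_cast (by omega : 3 ≤ w)
  obtain ⟨l, hl⟩ : ∃ l : ℝ, l = Real.log ((w : ℝ) + 1) := ⟨_, rfl⟩
  rw [← hl] at g2 ⊢
  have hl1 : 1 ≤ l := by linarith
  have hN : (((w + 1) ^ 2 : ℕ) : ℝ) = ((w : ℝ) + 1) ^ 2 := by push_cast; ring
  have hlN : Real.log (((w + 1) ^ 2 : ℕ) : ℝ) = 2 * l := by rw [hN, Real.log_pow, hl]; norm_num
  obtain ⟨e, he⟩ : ∃ e : ℝ, e = Real.log ((w : ℝ) + 2) := ⟨_, rfl⟩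
  have he1 : 1 ≤ e := by
    rw [he]
    exact hl1.trans (by rw [hl]; exact Real.log_le_log (by linarith) (by linarith))
  have hel : e ≤ 2 * l := by
    rw [he, hl]
    have : Real.log ((w : ℝ) + 2) ≤ Real.log (((w : ℝ) + 1) ^ 2) := Real.log_le_log (by linarith) (by nlinarith)
    rw [Real.log_pow] at this
    exact_mod_cast this
  obtain ⟨q, hq⟩ : ∃ q, q = size A w := ⟨_, rfl⟩
  have hqe : q = ⌈((w : ℝ) + 1) ^ 2 / e ^ A⌉₊ := by rw [hq, he]; rfl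
  rw [← hq]
  have hq1 : ((w : ℝ) + 1) ^ 2 / e ^ A ≤ q := by rw [hqe]; exact Nat.le_ceil _
  have hqN : q ≤ (w + 1) ^ 2 := by
    rw [hqe, Nat.ceil_le, hN, div_le_iff₀ (by positivity)]
    have : 1 ≤ e ^ A := one_le_pow₀ he1
    nlinarith [sq_nonneg ((w : ℝ) + 1)]
  have hqq : (((w + 1) ^ 2 : ℕ) : ℝ) ≤ q * Real.log (((w + 1) ^ 2 : ℕ) : ℝ) ^ (A + 1) := by
    rw [hlN, hN]
    rw [div_le_iff₀ (by positivity)] at hq1
    refine hq1.trans ?_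
    apply mul_le_mul_of_nonneg_left _ (Nat.cast_nonneg _)
    rw [pow_succ]
    calc e ^ A ≤ (2 * l) ^ A := pow_le_pow_left₀ (by linarith) hel A
      _ = (2 * l) ^ A * 1 := (mul_one _).symm
      _ ≤ _ := mul_le_mul_of_nonneg_left (by linarith) (by positivity)
  have k1 := g1 x q (by omega) hqq hqN
  rw [hlN] at k1
  have k2 : Dc x q ≤ ((Icc 1 q).filter fun a => (x + a).Prime).card := by
    unfold Dc
    apply card_le_card_of_injOn (fun t => t - x)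
    · intro t ht
      rw [mem_coe, mem_filter, mem_Ioc] at ht
      rw [mem_coe, mem_filter, mem_Icc]
      obtain ⟨⟨t1, t2⟩, t3⟩ := ht
      refine ⟨⟨show 1 ≤ t - x by omega, show t - x ≤ q by omega⟩, ?_⟩
      show (x + (t - x)).Prime
      rw [Nat.add_sub_cancel' t1.le]
      exact t3
    · intro t ht t' ht' he
      rw [mem_coe, mem_filter, mem_Ioc] at ht ht'
      simp only at he
      omega
  have k3 : ((Dc x q : ℕ) : ℝ) ≤ _ := Nat.cast_le.2 k2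
  refine le_trans ?_ (k1.trans k3)
  have k4 : K / (2 * l) ≤ 1 / 2 := by
    rw [div_le_iff₀ (by linarith)]
    linarith
  have k5 : (q : ℝ) / (2 * l) - K * (q / (2 * l) ^ 2) = (q / (2 * l)) * (1 - K / (2 * l)) := by
    field_simp
  rw [k5]
  calc (q : ℝ) / (4 * l) = (q / (2 * l)) * (1 / 2) := by field_simp; norm_num
    _ ≤ _ := mul_le_mul_of_nonneg_left (by linarith) (by positivity)

/-- the pairs of constants which are good for a representation with last coordinate `w` -/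
def Good (A n w : ℕ) (k : ℕ × ℕ) : Prop :=
  (1 ≤ k.1 ∧ k.1 ≤ size A w ∧ 1 ≤ k.2 ∧ k.2 ≤ size A w) ∧ ∃ x y z : ℕ, n = x ^ 2 + y ^ 2 + z ^ 2 + w ^ 2 ∧
    (x ^ 2 + 3 * y ^ 2 + 5 * z ^ 2 + 7 * w ^ 2 + k.1).Prime ∧ ∃ q : ℕ, q.Prime ∧ q + 2 = x ^ 2 + 3 * y ^ 2 + 5 * z ^ 2 + 7 * w ^ 2 + k.2

lemma three (m : ℕ) (h : m % 4 = 1 ∨ m % 4 = 2) : ∃ x y z : ℕ, x ^ 2 + y ^ 2 + z ^ 2 = m := by
  have h2 : ∃ x y z : ℤ, x ^ 2 + y ^ 2 + z ^ 2 = m := by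
    rcases h with h | h
    · exact Pool.Agent.H141R2.FS.three_squares_one h
    · exact Pool.Agent.H565R2.NS.three_squares_two h
  obtain ⟨x, y, z, e⟩ := h2
  refine ⟨x.natAbs, y.natAbs, z.natAbs, ?_⟩
  zify
  rw [sq_abs, sq_abs, sq_abs]
  exact e

lemma exists_pairs (A : ℕ) : ∃ w0 : ℕ, ∀ n w : ℕ, w0 ≤ w → w ^ 2 ≤ n → n ≤ 4 * (w + 1) ^ 2 →
    ((n - w ^ 2) % 4 = 1 ∨ (n - w ^ 2) % 4 = 2) → ∃ K : Finset (ℕ × ℕ), (∀ k ∈ K, Good A n w k) ∧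
      (size A w : ℝ) ^ 2 / (16 * Real.log (w + 1) ^ 2) ≤ K.card := by
  classical
  obtain ⟨w0, h0⟩ := many_primes A
  refine ⟨w0 + 1, ?_⟩
  intro n w hw hwn hn h4
  obtain ⟨x, y, z, hxyz⟩ := three _ h4
  have hsum : n = x ^ 2 + y ^ 2 + z ^ 2 + w ^ 2 := by omega
  obtain ⟨p, hp⟩ : ∃ p, p = x ^ 2 + 3 * y ^ 2 + 5 * z ^ 2 + 7 * w ^ 2 := ⟨_, rfl⟩
  have hp7 : p ≤ 28 * (w + 1) ^ 2 := by omega
  have hw1 : 1 ≤ w ^ 2 := Nat.one_le_pow _ _ (by omega)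
  have hp2 : 2 ≤ p := by omega
  refine ⟨((Icc 1 (size A w)).filter fun a => (p + a).Prime) ×ˢ ((Icc 1 (size A w)).filter fun a => (p - 2 + a).Prime), ?_, ?_⟩
  · intro k hk
    rw [mem_product, mem_filter, mem_filter, mem_Icc, mem_Icc] at hk
    obtain ⟨⟨⟨a1, a2⟩, a3⟩, ⟨b1, b2⟩, b3⟩ := hk
    refine ⟨⟨a1, a2, b1, b2⟩, x, y, z, hsum, ?_, p - 2 + k.2, b3, ?_⟩
    · rw [← hp]; exact a3
    · rw [← hp]; omega
  · rw [card_product]
    push_cast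
    have g1 := h0 w (by omega) p hp7
    have g2 := h0 w (by omega) (p - 2) (by omega)
    have hl : 0 ≤ Real.log ((w : ℝ) + 1) := Real.log_nonneg (by have := Nat.cast_nonneg (α := ℝ) w; linarith)
    have e : (size A w : ℝ) ^ 2 / (16 * Real.log (w + 1) ^ 2) = (size A w / (4 * Real.log (w + 1))) * (size A w / (4 * Real.log (w + 1))) := by
      rw [div_mul_div_comm]
      congr 1
      · ring
      · ring
    rw [e]
    exact mul_le_mul g1 g2 (by positivity) (Nat.cast_nonneg _)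

/-- the values `w` of the right parity -/
lemma many_w (w0 : ℕ) : ∃ n0 : ℕ, ∀ n : ℕ, n0 ≤ n → Odd n → ∃ W : Finset ℕ, W ⊆ range (Nat.sqrt n + 1) ∧ Nat.sqrt n ≤ 8 * W.card ∧
    ∀ w ∈ W, w0 ≤ w ∧ w ^ 2 ≤ n ∧ n ≤ 4 * (w + 1) ^ 2 ∧ ((n - w ^ 2) % 4 = 1 ∨ (n - w ^ 2) % 4 = 2) := by
  refine ⟨(2 * w0 + 40) ^ 2, ?_⟩
  intro n hn hodd
  obtain ⟨s, hs⟩ : ∃ s, s = Nat.sqrt n := ⟨_, rfl⟩
  rw [← hs]
  have hs1 : 2 * w0 + 40 ≤ s := by
    rw [hs, Nat.le_sqrt']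
    exact hn
  have hs2 : s ^ 2 ≤ n := by rw [hs]; exact Nat.sqrt_le' n
  have hs3 : n < (s + 1) ^ 2 := by rw [hs]; exact Nat.lt_succ_sqrt' n
  obtain ⟨δ, hδ1, hδ⟩ : ∃ δ : ℕ, δ ≤ 1 ∧ ((δ = 0 ∧ n % 4 = 1) ∨ (δ = 1 ∧ n % 4 = 3)) := by
    have h2 := Nat.odd_iff.1 hodd
    rcases (by omega : n % 4 = 1 ∨ n % 4 = 3) with h | h
    · exact ⟨0, by omega, Or.inl ⟨rfl, h⟩⟩
    · exact ⟨1, by omega, Or.inr ⟨rfl, h⟩⟩
  refine ⟨(Icc (s / 4 + 1) ((s - 1) / 2)).image fun j => 2 * j + δ, ?_, ?_, ?_⟩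
  · intro w hw
    rw [mem_image] at hw
    obtain ⟨j, hj, rfl⟩ := hw
    rw [mem_Icc] at hj
    rw [mem_range]
    omega
  · rw [card_image_of_injective _ (fun i j hij => by have h9 : 2 * i + δ = 2 * j + δ := hij; omega), Nat.card_Icc]
    omega
  · intro w hw
    rw [mem_image] at hw
    obtain ⟨j, hj, rfl⟩ := hw
    rw [mem_Icc] at hj
    have b1 : 2 * j + δ ≤ s := by omega
    have b2 : s + 1 ≤ 2 * (2 * j + δ + 1) := by omega
    have b3 : (2 * j + δ) ^ 2 ≤ n := (Nat.pow_le_pow_left b1 2).trans hs2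
    have b4 : (s + 1) ^ 2 ≤ (2 * (2 * j + δ + 1)) ^ 2 := Nat.pow_le_pow_left b2 2
    refine ⟨by omega, b3, ?_, ?_⟩
    · have : (2 * (2 * j + δ + 1)) ^ 2 = 4 * (2 * j + δ + 1) ^ 2 := by ring
      omega
    · rcases hδ with ⟨h0, h1⟩ | ⟨h0, h1⟩
      · left
        subst h0
        have e : (2 * j + 0) ^ 2 = 4 * j ^ 2 := by ring
        rw [e] at b3 ⊢
        omega
      · right
        subst h0
        have e : (2 * j + 1) ^ 2 = 4 * (j ^ 2 + j) + 1 := by ring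
        rw [e] at b3 ⊢
        omega

variable {Ω : Type} [MeasurableSpace Ω] {μ : Measure Ω} [IsProbabilityMeasure μ] {a : ℕ → Ω → ℕ × ℕ}

lemma thr_large : ∀ᶠ n : ℕ in atTop, 2 * Real.log n ≤ Real.sqrt n / (1024 * Real.log n ^ 2) := by
  have a1 : (fun x : ℝ => Real.log x ^ (3 : ℕ)) =o[atTop] (fun x : ℝ => x ^ (1 / 2 : ℝ)) := by
    have := isLittleO_log_rpow_rpow_atTop (3 : ℝ) (show (0 : ℝ) < 1 / 2 by norm_num)
    refine this.congr' ?_ (by rfl)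
    filter_upwards with x
    exact_mod_cast Real.rpow_natCast _ 3
  have a2 := (a1.comp_tendsto tendsto_natCast_atTop_atTop).bound (show (0 : ℝ) < 1 / 2048 by norm_num)
  filter_upwards [a2, eventually_ge_atTop 3] with n h1 h2
  have hn : (3 : ℝ) ≤ n := by exact_mod_cast h2
  have hl : 0 < Real.log (n : ℝ) := Real.log_pos (by linarith)
  rw [Function.comp_apply, Function.comp_apply, Real.norm_of_nonneg (by positivity), Real.norm_of_nonneg (by positivity),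
    ← Real.sqrt_eq_rpow] at h1
  rw [le_div_iff₀ (by positivity)]
  calc 2 * Real.log n * (1024 * Real.log n ^ 2) = 2048 * Real.log n ^ 3 := by ring
    _ ≤ Real.sqrt n := by linarith

theorem twin (A : ℕ) (hm : ∀ w, Measurable (a w)) (hi : iIndepFun a μ)
    (hlaw : ∀ w (k : ℕ × ℕ), 1 ≤ k.1 → k.1 ≤ size A w → 1 ≤ k.2 → k.2 ≤ size A w → μ.real {ω | a w ω = k} = 1 / (size A w : ℝ) ^ 2) :
    ∀ᵐ ω ∂μ, ∀ᶠ n : ℕ in atTop, Odd n → ∃ W : Finset ℕ, Real.sqrt n / (1024 * Real.log n ^ 2) < (W.card : ℝ) ∧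
      ∀ w ∈ W, Good A n w (a w ω) := by
  classical
  obtain ⟨w0, h0⟩ := exists_pairs A
  obtain ⟨n0, h1⟩ := many_w w0
  have hex : ∀ n w : ℕ, ∃ K : Finset (ℕ × ℕ), (∀ k ∈ K, Good A n w k) ∧ (w0 ≤ w → w ^ 2 ≤ n → n ≤ 4 * (w + 1) ^ 2 →
      ((n - w ^ 2) % 4 = 1 ∨ (n - w ^ 2) % 4 = 2) → (size A w : ℝ) ^ 2 / (16 * Real.log (w + 1) ^ 2) ≤ K.card) := by
    intro n w
    by_cases h : w0 ≤ w ∧ w ^ 2 ≤ n ∧ n ≤ 4 * (w + 1) ^ 2 ∧ ((n - w ^ 2) % 4 = 1 ∨ (n - w ^ 2) % 4 = 2)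
    · obtain ⟨K, k1, k2⟩ := h0 n w h.1 h.2.1 h.2.2.1 h.2.2.2
      exact ⟨K, k1, fun _ _ _ _ => k2⟩
    · exact ⟨∅, fun k hk => absurd hk (notMem_empty k), fun a1 a2 a3 a4 => absurd ⟨a1, a2, a3, a4⟩ h⟩
  choose K hK1 hK2 using hex
  have hpr : ∀ n w, μ.real {ω | a w ω ∈ K n w} = ((K n w).card : ℝ) * (1 / (size A w : ℝ) ^ 2) := by
    intro n w
    apply prob_H2 (hm w) (K n w)
    intro k hk
    obtain ⟨⟨c1, c2, c3, c4⟩, -⟩ := hK1 n w k hk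
    exact hlaw w k c1 c2 c3 c4
  have hsum : ∀ᶠ n : ℕ in atTop, Odd n → 4 * (Real.sqrt n / (1024 * Real.log n ^ 2)) ≤
      ∑ w ∈ range (Nat.sqrt n + 1), μ.real {ω | a w ω ∈ K n w} := by
    filter_upwards [eventually_ge_atTop n0, eventually_ge_atTop (w0 + 16)] with n g1 g2 hodd
    obtain ⟨W, hW1, hW2, hW3⟩ := h1 n g1 hodd
    have hn : (16 : ℝ) ≤ n := by exact_mod_cast (by omega : 16 ≤ n)
    have hl : 0 < Real.log (n : ℝ) := Real.log_pos (by linarith)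
    have b1 : ∀ w ∈ W, 1 / (16 * Real.log n ^ 2) ≤ μ.real {ω | a w ω ∈ K n w} := by
      intro w hw
      obtain ⟨c1, c2, c3, c4⟩ := hW3 w hw
      have c5 := hK2 n w c1 c2 c3 c4
      rw [hpr]
      have hs : (0 : ℝ) < size A w := by exact_mod_cast size_pos A w
      have hw1 : 1 ≤ w := by
        by_contra h
        have : w = 0 := by omega
        subst this
        omega
      have hwr : (1 : ℝ) ≤ w := by exact_mod_cast hw1
      have hlw : 0 < Real.log ((w : ℝ) + 1) := Real.log_pos (by linarith)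
      have hwn : (w : ℝ) + 1 ≤ n := by
        have h3 : w + 1 ≤ n := by
          rcases Nat.lt_or_ge w 4 with h4 | h4
          · omega
          · nlinarith
        exact_mod_cast h3
      have hll : Real.log ((w : ℝ) + 1) ≤ Real.log n := Real.log_le_log (by linarith) hwn
      calc 1 / (16 * Real.log n ^ 2) ≤ 1 / (16 * Real.log ((w : ℝ) + 1) ^ 2) := by
            apply one_div_le_one_div_of_le (by positivity)
            have := pow_le_pow_left₀ hlw.le hll 2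
            linarith
        _ = ((size A w : ℝ) ^ 2 / (16 * Real.log ((w : ℝ) + 1) ^ 2)) * (1 / (size A w : ℝ) ^ 2) := by
            field_simp
        _ ≤ _ := mul_le_mul_of_nonneg_right c5 (by positivity)
    have b2 : (W.card : ℝ) * (1 / (16 * Real.log n ^ 2)) ≤ ∑ w ∈ W, μ.real {ω | a w ω ∈ K n w} := by
      rw [← nsmul_eq_mul]
      exact card_nsmul_le_sum W _ _ b1
    have b3 : ∑ w ∈ W, μ.real {ω | a w ω ∈ K n w} ≤ ∑ w ∈ range (Nat.sqrt n + 1), μ.real {ω | a w ω ∈ K n w} :=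
      sum_le_sum_of_subset_of_nonneg hW1 fun _ _ _ => measureReal_nonneg
    refine le_trans ?_ (b2.trans b3)
    have b4 : Real.sqrt n ≤ 2 * (Nat.sqrt n : ℝ) := by
      have c1 : Real.sqrt n < (Nat.sqrt n : ℝ) + 1 := Real.real_sqrt_lt_nat_sqrt_succ
      have c2 : 1 ≤ Nat.sqrt n := Nat.sqrt_pos.2 (by omega)
      have c3 : (1 : ℝ) ≤ (Nat.sqrt n : ℝ) := by exact_mod_cast c2
      linarith
    have b5 : (Nat.sqrt n : ℝ) ≤ 8 * (W.card : ℝ) := by exact_mod_cast hW2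
    have b6 : Real.sqrt n ≤ 16 * (W.card : ℝ) := by linarith
    calc 4 * (Real.sqrt n / (1024 * Real.log n ^ 2)) = (Real.sqrt n / 16) * (1 / (16 * Real.log n ^ 2)) := by
          field_simp
          norm_num
      _ ≤ _ := mul_le_mul_of_nonneg_right (by linarith) (by positivity)
  filter_upwards [law2 hm hi _ thr_large (fun n => Nat.sqrt n + 1) K Odd hsum] with ω hω
  filter_upwards [hω] with n hn hodd
  obtain ⟨W, d1, d2⟩ := hn hodd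
  exact ⟨W, d1, fun w hw => hK1 n w _ (d2 w hw).2⟩

/-- the constants are in the intervals -/
lemma range_ae2 (L : ℕ → ℕ) (hL : ∀ w, 1 ≤ L w) (hm : ∀ w, Measurable (a w))
    (hlaw : ∀ w (k : ℕ × ℕ), 1 ≤ k.1 → k.1 ≤ L w → 1 ≤ k.2 → k.2 ≤ L w → μ.real {ω | a w ω = k} = 1 / (L w : ℝ) ^ 2) :
    ∀ᵐ ω ∂μ, ∀ w, 1 ≤ (a w ω).1 ∧ (a w ω).1 ≤ L w ∧ 1 ≤ (a w ω).2 ∧ (a w ω).2 ≤ L w := by
  rw [ae_all_iff]
  intro w
  obtain ⟨B, hB⟩ : ∃ B : Finset (ℕ × ℕ), B = Icc 1 (L w) ×ˢ Icc 1 (L w) := ⟨_, rfl⟩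
  have h1 := prob_H2 (μ := μ) (hm w) B (1 / (L w : ℝ) ^ 2) (fun k hk => by
    rw [hB, mem_product, mem_Icc, mem_Icc] at hk
    exact hlaw w k hk.1.1 hk.1.2 hk.2.1 hk.2.2)
  have hs : MeasurableSet {ω | a w ω ∈ B} := hm w (Set.to_countable (B : Set (ℕ × ℕ))).measurableSet
  have hL0 : (0 : ℝ) < L w := by exact_mod_cast hL w
  have h2 : μ.real {ω | a w ω ∈ B} = 1 := by
    rw [h1, hB, card_product, Nat.card_Icc, Nat.add_sub_cancel]
    push_cast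
    field_simp
  have h3 : μ {ω | a w ω ∈ B} = 1 := by
    rw [Measure.real, ENNReal.toReal_eq_one_iff] at h2
    exact h2
  have h4 := (prob_compl_eq_zero_iff hs).2 h3
  rw [ae_iff]
  rw [← h4]
  congr 1
  ext ω
  rw [Set.mem_compl_iff, Set.mem_setOf_eq, Set.mem_setOf_eq, hB, mem_product, mem_Icc, mem_Icc]
  tauto

/-- the model exists -/
lemma exists_model2 (L : ℕ → ℕ) (hL : ∀ w, 1 ≤ L w) :
    ∃ (Ω : Type) (_ : MeasurableSpace Ω) (μ : Measure Ω) (_ : IsProbabilityMeasure μ) (a : ℕ → Ω → ℕ × ℕ),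
    (∀ w, Measurable (a w)) ∧ iIndepFun a μ ∧
      ∀ w (k : ℕ × ℕ), 1 ≤ k.1 → k.1 ≤ L w → 1 ≤ k.2 → k.2 ≤ L w → μ.real {ω | a w ω = k} = 1 / (L w : ℝ) ^ 2 := by
  classical
  have hne : ∀ w, (Icc 1 (L w) ×ˢ Icc 1 (L w)).Nonempty := fun w => ⟨(1, 1), mem_product.2 ⟨mem_Icc.2 ⟨le_rfl, hL w⟩, mem_Icc.2 ⟨le_rfl, hL w⟩⟩⟩
  obtain ⟨Ω, _, μ, a, hm, hl, hi, hp⟩ := exists_hasLaw_indepFun (ι := ℕ) (fun _ => ℕ × ℕ) (fun w => (PMF.uniformOfFinset _ (hne w)).toMeasure)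
  refine ⟨Ω, _, μ, hp, a, hm, hi, fun w k h1 h2 h3 h4 => ?_⟩
  have h5 : μ {ω | a w ω = k} = (PMF.uniformOfFinset _ (hne w)).toMeasure {k} := by
    rw [← (hl w).map_eq, Measure.map_apply (hm w) (measurableSet_singleton k)]
    rfl
  rw [Measure.real, h5, PMF.toMeasure_apply_singleton _ _ (measurableSet_singleton k),
    PMF.uniformOfFinset_apply_of_mem _ (mem_product.2 ⟨mem_Icc.2 ⟨h1, h2⟩, mem_Icc.2 ⟨h3, h4⟩⟩), card_product, Nat.card_Icc, Nat.add_sub_cancel]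
  simp [sq]

end Pool.Agent.Run7.h189.RC
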